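import Pool.Agent.Lib_MP_6050fa_q.Seq

/-!
MP_6050fa_nt.  Congruences for `W` and `U` modulo powers of primes.
-/

set_option autoImplicit false

namespace Pool.Agent.Lib_MP_6050fa_q

open Finset

/-- the basic divisibility -/
theorem dvd_aux {p s e j c v l : ℕ} (hp : p.Prime) (hl : ¬ p ∣ l) (hv : v < j) (he : 0 < e)
    (h : p ^ s ∣ c * (p ^ v * l)) : p ^ (s + e) ∣ c * (p ^ e) ^ j := by
  have h1 : p ^ s ∣ c * p ^ v := by
    have h2 : Nat.Coprime (p ^ s) l := Nat.Coprime.pow_left s ((Nat.Prime.coprime_iff_not_dvd hp).2 hl)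
    rw [← mul_assoc] at h
    exact h2.dvd_of_dvd_mul_right h
  have h3 : v + e ≤ e * j := by
    obtain ⟨i, rfl⟩ : ∃ i, j = v + 1 + i := ⟨j - (v + 1), by omega⟩
    have : v ≤ e * v := Nat.le_mul_of_pos_left v he
    calc v + e ≤ e * v + e := by omega
      _ ≤ e * v + e + e * i := by omega
      _ = e * (v + 1 + i) := by ring
  have h4 : c * (p ^ e) ^ j = (c * p ^ v) * p ^ (e * j - v) := by
    rw [← pow_mul, mul_assoc, ← pow_add]
    congr 2
    omega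
  rw [h4, pow_add]
  exact mul_dvd_mul h1 (pow_dvd_pow p (by omega))

theorem lt_of_two_pow {v j : ℕ} (hj : 0 < j) (h : 2 ^ v ∣ j) : v < j := by
  by_contra hcon
  have h1 := Nat.le_of_dvd hj h
  have h2 : j < 2 ^ j := Nat.lt_two_pow_self
  have h3 : 2 ^ j ≤ 2 ^ v := Nat.pow_le_pow_right two_pos (by omega)
  omega

theorem choose_even_dvd {s e K j : ℕ} (hs : 2 ^ s ∣ K) (hj : 0 < j) (hjK : j ≤ K) (he : 0 < e) :
    2 ^ (s + e) ∣ (2 * K + 1).choose (2 * j) * (2 ^ e) ^ j := by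
  obtain ⟨k, rfl⟩ : ∃ k, K = k + 1 := ⟨K - 1, by omega⟩
  obtain ⟨i, rfl⟩ : ∃ i, j = i + 1 := ⟨j - 1, by omega⟩
  obtain ⟨v, l, hl, hvl⟩ := Nat.exists_eq_pow_mul_and_not_dvd
    (by omega : i + 1 ≠ 0) 2 (by norm_num)
  have hv : v < i + 1 := lt_of_two_pow hj ⟨l, hvl⟩
  have h1 := choose_even k i
  rw [show 2 * (k + 1) + 1 = 2 * k + 3 by ring, show 2 * (i + 1) = 2 * i + 2 by ring]
  refine dvd_aux (l := l * (2 * i + 1)) (v := v) Nat.prime_two ?_ hv he ?_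
  · intro h
    rcases (Nat.Prime.dvd_mul Nat.prime_two).1 h with h | h
    · exact hl h
    · omega
  · have h2 : (2 * k + 3).choose (2 * i + 2) * (2 ^ v * (l * (2 * i + 1))) =
        (2 * k + 3).choose (2 * i + 2) * ((i + 1) * (2 * i + 1)) := by
      rw [hvl]
      ring
    rw [h2, h1]
    exact Dvd.dvd.mul_right (Dvd.dvd.mul_left hs _) _

theorem pow_le_of_dvd {p v j : ℕ} (hp : p.Prime) (hj : 0 < j) (h : p ^ v ∣ j * (2 * j + 1)) :
    p ^ v ≤ 2 * j + 1 := by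
  rcases Nat.eq_zero_or_pos v with rfl | hv
  · simp
  have hc : Nat.Coprime j (2 * j + 1) := by
    rw [Nat.coprime_mul_right_add_right]
    exact Nat.coprime_one_right j
  have hpp : IsPrimePow (p ^ v) := (Nat.Prime.isPrimePow hp).pow hv.ne'
  rcases (Nat.Coprime.isPrimePow_dvd_mul hc hpp).1 h with h1 | h1
  · have := Nat.le_of_dvd hj h1
    omega
  · exact Nat.le_of_dvd (by omega) h1

theorem choose_odd_dvd {p s e K j : ℕ} (hp : p.Prime) (hs : p ^ s ∣ K) (hj : 0 < j) (hjK : j ≤ K)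
    (he : 0 < e) (hp3 : p = 3 → 2 ≤ j) :
    p ^ (s + e) ∣ (2 * K + 1).choose (2 * j + 1) * (p ^ e) ^ j := by
  obtain ⟨v, l, hl, hvl⟩ := Nat.exists_eq_pow_mul_and_not_dvd
    (by positivity : j * (2 * j + 1) ≠ 0) p hp.ne_one
  have hv : v < j := by
    rcases eq_or_ne p 2 with rfl | hp2
    · apply lt_of_two_pow hj
      have h1 : 2 ^ v ∣ j * (2 * j + 1) := ⟨l, hvl⟩
      have h2 : Nat.Coprime (2 ^ v) (2 * j + 1) := by
        apply Nat.Coprime.pow_left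
        rw [Nat.coprime_two_left]
        exact ⟨j, rfl⟩
      exact h2.dvd_of_dvd_mul_right h1
    · have h1 := pow_le_of_dvd hp hj ⟨l, hvl⟩
      by_contra hcon
      have h2 : p ^ j ≤ p ^ v := Nat.pow_le_pow_right hp.pos (by omega)
      have h3 : p ^ j ≤ 2 * j + 1 := h2.trans h1
      rcases eq_or_ne p 3 with rfl | hp3'
      · have h4 : 2 ≤ j := hp3 rfl
        have h5 : ∀ i, 2 * (i + 2) + 1 < 3 ^ (i + 2) := by
          intro i
          induction i with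
          | zero => norm_num
          | succ i ih =>
            rw [show i + 1 + 2 = (i + 2) + 1 by ring, pow_succ]
            omega
        have h6 := h5 (j - 2)
        rw [show j - 2 + 2 = j by omega] at h6
        omega
      · have hp5 : 5 ≤ p := by
          have h4 := hp.two_le
          have h5 : p ≠ 4 := by
            rintro rfl
            exact absurd hp (by norm_num)
          omega
        have h6 : ∀ i, 2 * (i + 1) + 1 < 5 ^ (i + 1) := by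
          intro i
          induction i with
          | zero => norm_num
          | succ i ih =>
            rw [pow_succ]
            omega
        have h7 := h6 (j - 1)
        rw [show j - 1 + 1 = j by omega] at h7
        have h8 : 5 ^ j ≤ p ^ j := Nat.pow_le_pow_left hp5 j
        omega
  refine dvd_aux hp hl hv he ?_
  rw [← hvl]
  obtain ⟨k, rfl⟩ : ∃ k, K = k + 1 := ⟨K - 1, by omega⟩
  obtain ⟨i, rfl⟩ : ∃ i, j = i + 1 := ⟨j - 1, by omega⟩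
  have h1 := choose_odd k i
  rw [show 2 * (k + 1) + 1 = 2 * k + 3 by ring, show 2 * (i + 1) + 1 = 2 * i + 3 by ring, h1]
  exact Dvd.dvd.mul_right (Dvd.dvd.mul_left hs _) _

/-- the expansion in powers of `T` -/
theorem U_mod_T {T n : ℤ} (hT : T ≠ 0) (hn : n ≠ 0) {s e K : ℕ} (he : 0 < e) (hs : 2 ^ s ∣ K)
    (hTe : ((2 ^ e : ℕ) : ℤ) ∣ T) : ((2 ^ (s + e) : ℕ) : ℤ) ∣ U T n K - (-n) ^ K := by
  rw [(W_U_eq hT hn K).2]
  unfold Ub
  rw [← sum_range_reflect, sum_range_succ']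
  have h0 : ((2 * K + 1).choose (2 * (K + 1 - 1 - 0) + 1) : ℤ) * T ^ (K - (K + 1 - 1 - 0)) *
      (-n) ^ (K + 1 - 1 - 0) = (-n) ^ K := by
    simp
  rw [h0, add_sub_cancel_right]
  apply dvd_sum
  intro i hi
  rw [mem_range] at hi
  have h1 : (2 * K + 1).choose (2 * (K + 1 - 1 - (i + 1)) + 1) = (2 * K + 1).choose (2 * (i + 1)) := by
    rw [show 2 * (K + 1 - 1 - (i + 1)) + 1 = 2 * K + 1 - 2 * (i + 1) by omega]
    exact Nat.choose_symm (by omega)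
  have h2 : K - (K + 1 - 1 - (i + 1)) = i + 1 := by omega
  rw [h1, h2]
  obtain ⟨M, hM⟩ := hTe
  have h3 := choose_even_dvd (e := e) (j := i + 1) hs (by omega) (by omega) he
  have h4 : ((2 ^ (s + e) : ℕ) : ℤ) ∣
      (((2 * K + 1).choose (2 * (i + 1)) * (2 ^ e) ^ (i + 1) : ℕ) : ℤ) := by exact_mod_cast h3
  have h5 : ((2 * K + 1).choose (2 * (i + 1)) : ℤ) * T ^ (i + 1) * (-n) ^ (K + 1 - 1 - (i + 1)) =
      (((2 * K + 1).choose (2 * (i + 1)) * (2 ^ e) ^ (i + 1) : ℕ) : ℤ) *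
        (M ^ (i + 1) * (-n) ^ (K + 1 - 1 - (i + 1))) := by
    rw [hM]
    push_cast
    ring
  rw [h5]
  exact Dvd.dvd.mul_right h4 _

/-- the expansion in powers of `n` -/
theorem U_mod_n {T n : ℤ} (hT : T ≠ 0) (hn : n ≠ 0) {p s e K : ℕ} (hp : p.Prime) (hp3 : p ≠ 3)
    (he : 0 < e) (hs : p ^ s ∣ K) (hne : ((p ^ e : ℕ) : ℤ) ∣ n) :
    ((p ^ (s + e) : ℕ) : ℤ) ∣ U T n K - (2 * K + 1) * T ^ K := by
  rw [(W_U_eq hT hn K).2]
  unfold Ub
  rw [sum_range_succ']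
  have h0 : ((2 * K + 1).choose (2 * 0 + 1) : ℤ) * T ^ (K - 0) * (-n) ^ 0 =
      (2 * K + 1) * T ^ K := by
    simp
  rw [h0, add_sub_cancel_right]
  apply dvd_sum
  intro i hi
  rw [mem_range] at hi
  obtain ⟨M, hM⟩ := hne
  have h3 := choose_odd_dvd (e := e) (j := i + 1) hp hs (by omega) (by omega) he
    (fun h => absurd h hp3)
  have h4 : ((p ^ (s + e) : ℕ) : ℤ) ∣
      (((2 * K + 1).choose (2 * (i + 1) + 1) * (p ^ e) ^ (i + 1) : ℕ) : ℤ) := by exact_mod_cast h3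
  have h5 : ((2 * K + 1).choose (2 * (i + 1) + 1) : ℤ) * T ^ (K - (i + 1)) * (-n) ^ (i + 1) =
      (((2 * K + 1).choose (2 * (i + 1) + 1) * (p ^ e) ^ (i + 1) : ℕ) : ℤ) *
        (T ^ (K - (i + 1)) * (-M) ^ (i + 1)) := by
    rw [hM]
    push_cast
    rw [show -((p : ℤ) ^ e * M) = (p : ℤ) ^ e * (-M) by ring, mul_pow]
    ring
  rw [h5]
  exact Dvd.dvd.mul_right h4 _

/-- the expansion in powers of `n` for `p = 3` -/
theorem U_mod_three {T n : ℤ} (hT : T ≠ 0) (hn : n ≠ 0) {s e K : ℕ} (he : 0 < e) (hK : 0 < K)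
    (hs : 3 ^ s ∣ K) (hne : ((3 ^ e : ℕ) : ℤ) ∣ n) :
    ((3 ^ (s + e) : ℕ) : ℤ) ∣
      U T n K - ((2 * K + 1) * T ^ K - (2 * K + 1).choose 3 * T ^ (K - 1) * n) := by
  rw [(W_U_eq hT hn K).2]
  unfold Ub
  obtain ⟨k, rfl⟩ : ∃ k, K = k + 1 := ⟨K - 1, by omega⟩
  rw [sum_range_succ', sum_range_succ']
  have h0 : ((2 * (k + 1) + 1).choose (2 * 0 + 1) : ℤ) * T ^ (k + 1 - 0) * (-n) ^ 0 =
      (2 * ((k + 1 : ℕ) : ℤ) + 1) * T ^ (k + 1) := by
    simp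
  have h1 : ((2 * (k + 1) + 1).choose (2 * (0 + 1) + 1) : ℤ) * T ^ (k + 1 - (0 + 1)) *
      (-n) ^ (0 + 1) = -((2 * (k + 1) + 1).choose 3 * T ^ (k + 1 - 1) * n) := by
    simp
  rw [h0, h1]
  have h6 : ∀ x a b : ℤ, x + -b + a - (a - b) = x := by intros; ring
  rw [h6]
  apply dvd_sum
  intro i hi
  rw [mem_range] at hi
  obtain ⟨M, hM⟩ := hne
  have h3 := choose_odd_dvd (e := e) (j := i + 1 + 1) Nat.prime_three hs (by omega) (by omega) he
    (fun _ => by omega)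
  have h4 : ((3 ^ (s + e) : ℕ) : ℤ) ∣
      (((2 * (k + 1) + 1).choose (2 * (i + 1 + 1) + 1) * (3 ^ e) ^ (i + 1 + 1) : ℕ) : ℤ) := by
    exact_mod_cast h3
  have h5 : ((2 * (k + 1) + 1).choose (2 * (i + 1 + 1) + 1) : ℤ) * T ^ (k + 1 - (i + 1 + 1)) *
      (-n) ^ (i + 1 + 1) =
      (((2 * (k + 1) + 1).choose (2 * (i + 1 + 1) + 1) * (3 ^ e) ^ (i + 1 + 1) : ℕ) : ℤ) *
        (T ^ (k + 1 - (i + 1 + 1)) * (-M) ^ (i + 1 + 1)) := by
    rw [hM]
    push_cast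
    rw [show -((3 : ℤ) ^ e * M) = (3 : ℤ) ^ e * (-M) by ring, mul_pow]
    ring
  rw [h5]
  exact Dvd.dvd.mul_right h4 _

/-- `W` modulo `n ^ 2` -/
theorem W_mod {T n : ℤ} (hT : T ≠ 0) (hn : n ≠ 0) {K : ℕ} (hK : 0 < K) :
    n ^ 2 ∣ W T n K - (T ^ K - (2 * K + 1) * K * T ^ (K - 1) * n) := by
  rw [(W_U_eq hT hn K).1]
  unfold Wb
  obtain ⟨k, rfl⟩ : ∃ k, K = k + 1 := ⟨K - 1, by omega⟩
  rw [sum_range_succ', sum_range_succ']
  have h0 : ((2 * (k + 1) + 1).choose (2 * 0) : ℤ) * T ^ (k + 1 - 0) * (-n) ^ 0 =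
      T ^ (k + 1) := by
    simp
  have hc : (2 * (k + 1) + 1).choose 2 = (2 * (k + 1) + 1) * (k + 1) := by
    rw [Nat.choose_two_right, show 2 * (k + 1) + 1 - 1 = 2 * (k + 1) by omega]
    rw [show (2 * (k + 1) + 1) * (2 * (k + 1)) = 2 * ((2 * (k + 1) + 1) * (k + 1)) by ring]
    exact Nat.mul_div_cancel_left _ two_pos
  have h1 : ((2 * (k + 1) + 1).choose (2 * (0 + 1)) : ℤ) * T ^ (k + 1 - (0 + 1)) *
      (-n) ^ (0 + 1) = -((2 * ((k + 1 : ℕ) : ℤ) + 1) * ((k + 1 : ℕ) : ℤ) * T ^ (k + 1 - 1) * n) := by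
    rw [show 2 * (0 + 1) = 2 by norm_num, hc]
    push_cast
    ring
  rw [h0, h1]
  have h6 : ∀ x a b : ℤ, x + -b + a - (a - b) = x := by intros; ring
  rw [h6]
  apply dvd_sum
  intro i _
  rw [show i + 1 + 1 = i + 2 by ring, pow_add (-n) i 2, neg_sq]
  exact ⟨((2 * (k + 1) + 1).choose (2 * (i + 2)) : ℤ) * T ^ (k + 1 - (i + 2)) * (-n) ^ i, by
    push_cast
    ring⟩

end Pool.Agent.Lib_MP_6050fa_q
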