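import Mathlib

/-!
MP_6050fa_nt.  From the order of an invertible ideal to the class number.
-/

set_option autoImplicit false

namespace Pool.Agent.Lib_MP_6050fa_q

open nonZeroDivisors

theorem class_dvd {R : Type} [CommRing R] [IsDomain R] {I : Ideal R} {E : ℕ} (hE : 0 < E) {ζ : R}
    (hζ : ζ ≠ 0) (hIE : I ^ E = Ideal.span {ζ}) {m1 : ℕ}
    (H : ∀ t, 0 < t → (∃ γ, I ^ t = Ideal.span {γ}) → m1 ∣ t) :
    m1 ∣ Nat.card (ClassGroup R) := by
  rcases Nat.eq_zero_or_pos (Nat.card (ClassGroup R)) with h0 | h0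
  · rw [h0]
    exact dvd_zero _
  apply H _ h0
  have hζ' : algebraMap R (FractionRing R) ζ ≠ 0 := by
    intro h
    exact hζ ((IsFractionRing.injective R (FractionRing R)) (by rw [h, map_zero]))
  have hmul : (I : FractionalIdeal R⁰ (FractionRing R)) *
      (((I ^ (E - 1) : Ideal R) : FractionalIdeal R⁰ (FractionRing R)) *
        FractionalIdeal.spanSingleton R⁰ ((algebraMap R (FractionRing R) ζ)⁻¹)) = 1 := by
    rw [← mul_assoc, ← FractionalIdeal.coeIdeal_mul, ← pow_succ', Nat.sub_add_cancel hE, hIE,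
      FractionalIdeal.coeIdeal_span_singleton, FractionalIdeal.spanSingleton_mul_spanSingleton,
      mul_inv_cancel₀ hζ', FractionalIdeal.spanSingleton_one]
  obtain ⟨u, hu⟩ : ∃ u : (FractionalIdeal R⁰ (FractionRing R))ˣ,
      (u : FractionalIdeal R⁰ (FractionRing R)) = I := ⟨Units.mkOfMulEqOne _ _ hmul, rfl⟩
  have h1 : ClassGroup.mk (FractionRing R) u ^ Nat.card (ClassGroup R) = 1 := pow_card_eq_one'
  rw [← map_pow] at h1
  obtain ⟨x, _, hx⟩ := (ClassGroup.mk_eq_one_of_coe_ideal (I' := I ^ Nat.card (ClassGroup R))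
    (by rw [Units.val_pow_eq_pow_val, hu, FractionalIdeal.coeIdeal_pow])).1 h1
  exact ⟨x, hx⟩

end Pool.Agent.Lib_MP_6050fa_q
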