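import Pool.Agent.Lib_MP_6050fa_q.Adic

/-!
MP_6050fa_nt.  The case `n` even, `q = 2 K + 1` not a divisor of `T`: here `T = c ^ n` and
`W ^ 2 = g ^ n`, and `U = ± 1` is impossible by congruences.
-/

set_option autoImplicit false

namespace Pool.Agent.Lib_MP_6050fa_q

open Finset

theorem pow_sub_one_dvd {a : ℤ} {i j : ℕ} (h : i ∣ j) : a ^ i - 1 ∣ a ^ j - 1 := by
  obtain ⟨k, rfl⟩ := h
  rw [pow_mul]
  have h1 := sub_dvd_pow_sub_pow (a ^ i) 1 k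
  rwa [one_pow] at h1

theorem pow_adic {p : ℕ} (hp : p.Prime) {c : ℤ} (hc : ¬ (p : ℤ) ∣ c) {e N : ℕ} (hN : p ^ e ∣ N) :
    (p : ℤ) ^ (e + 1) ∣ c ^ ((p - 1) * N) - 1 := by
  have h1 : IsCoprime c p := by
    rw [isCoprime_comm]
    exact (Prime.coprime_iff_not_dvd (Nat.prime_iff_prime_int.1 hp)).2 hc
  have h2 : (p : ℤ) ∣ c ^ (p - 1) - 1 := (Int.ModEq.pow_card_sub_one_eq_one hp h1).symm.dvd
  have h3 := dvd_sub_pow_of_dvd_sub (p := p) (a := c ^ (p - 1)) (b := 1) h2 e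
  rw [one_pow, ← pow_mul] at h3
  exact h3.trans (pow_sub_one_dvd (Nat.mul_dvd_mul_left _ hN))

theorem pow_adic_two {c : ℤ} (hc : Odd c) : ∀ e : ℕ, (2 : ℤ) ^ (e + 3) ∣ c ^ (2 ^ (e + 1)) - 1 := by
  intro e
  induction e with
  | zero =>
    have := Int.eight_dvd_sq_sub_one_of_odd hc
    simpa using this
  | succ e ih =>
    have h1 : c ^ (2 ^ (e + 1 + 1)) - 1 = (c ^ (2 ^ (e + 1)) - 1) * (c ^ (2 ^ (e + 1)) + 1) := by
      rw [pow_succ 2 (e + 1), pow_mul]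
      ring
    rw [h1, show e + 1 + 3 = (e + 3) + 1 by ring, pow_succ]
    refine mul_dvd_mul ih ?_
    have h2 : Odd (c ^ (2 ^ (e + 1))) := hc.pow
    obtain ⟨k, hk⟩ := h2
    exact ⟨k + 1, by rw [hk]; ring⟩

theorem pow_adic_two' {c : ℤ} (hc : Odd c) {e N : ℕ} (he : 0 < e) (hN : 2 ^ e ∣ N) :
    (2 : ℤ) ^ (e + 2) ∣ c ^ N - 1 := by
  obtain ⟨r, rfl⟩ : ∃ r, e = r + 1 := ⟨e - 1, by omega⟩
  exact (pow_adic_two hc r).trans (pow_sub_one_dvd hN)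

theorem Wsq_mod {T n : ℤ} (hT : T ≠ 0) (hn : n ≠ 0) {K : ℕ} (hK : 0 < K) :
    n ^ 2 ∣ W T n K ^ 2 - (T ^ (2 * K) - 2 * (2 * K + 1) * K * T ^ (2 * K - 1) * n) := by
  obtain ⟨r, hr⟩ := W_mod hT hn hK
  obtain ⟨k, rfl⟩ : ∃ k, K = k + 1 := ⟨K - 1, by omega⟩
  have h1 : W T n (k + 1) = T ^ (k + 1) - (2 * ((k + 1 : ℕ) : ℤ) + 1) * ((k + 1 : ℕ) : ℤ) *
      T ^ (k + 1 - 1) * n + n ^ 2 * r := by linarith
  rw [h1, Nat.add_sub_cancel, show 2 * (k + 1) - 1 = k + (k + 1) by omega,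
    show 2 * (k + 1) = (k + 1) + (k + 1) by ring, pow_add, pow_add]
  exact ⟨(2 * ((k + 1 : ℕ) : ℤ) + 1) ^ 2 * ((k + 1 : ℕ) : ℤ) ^ 2 * (T ^ k) ^ 2 +
    2 * (T ^ (k + 1) - (2 * ((k + 1 : ℕ) : ℤ) + 1) * ((k + 1 : ℕ) : ℤ) * T ^ k * n) * r +
      n ^ 2 * r ^ 2, by ring⟩

/-- `p` divides `(2 K + 1) K` -/
theorem p_dvd {p : ℕ} (hp : p.Prime) (hp2 : p ≠ 2) {c g T : ℤ} (hc : ¬ (p : ℤ) ∣ c)
    (hg : ¬ (p : ℤ) ∣ g) {n n' e K : ℕ} (he : 0 < e) (hn : n = p ^ e * n') (hn' : ¬ p ∣ n')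
    (hK : 0 < K) (hT : T = c ^ n) (hW : W T n K ^ 2 = g ^ n) : p ∣ (2 * K + 1) * K := by
  have hpZ : Prime (p : ℤ) := Nat.prime_iff_prime_int.1 hp
  have hp0 : (p : ℤ) ≠ 0 := hpZ.ne_zero
  have hc0 : c ≠ 0 := by
    rintro rfl
    exact hc (dvd_zero _)
  have hT0 : T ≠ 0 := by rw [hT]; exact pow_ne_zero _ hc0
  have hTp : ¬ (p : ℤ) ∣ T := by
    rw [hT]
    exact fun h => hc (hpZ.dvd_of_dvd_pow h)
  have hn0 : n ≠ 0 := by
    rw [hn]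
    refine mul_ne_zero (pow_ne_zero _ hp.ne_zero) ?_
    rintro rfl
    exact hn' (dvd_zero _)
  obtain ⟨r, hr⟩ := Wsq_mod hT0 (by exact_mod_cast hn0 : (n : ℤ) ≠ 0) hK
  have hpn : p ^ e ∣ n := ⟨n', hn⟩
  set u : ℤ := -(2 * (2 * K + 1) * K * T ^ (2 * K - 1) * n') + (p : ℤ) ^ e * n' ^ 2 * r with hu
  have hnZ : (n : ℤ) = (p : ℤ) ^ e * n' := by
    rw [hn]
    push_cast
    ring
  have h1 : g ^ n = T ^ (2 * K) + (p : ℤ) ^ e * u := by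
    rw [← hW]
    have : W T n K ^ 2 = T ^ (2 * K) - 2 * (2 * K + 1) * K * T ^ (2 * K - 1) * n + n ^ 2 * r := by
      linarith
    rw [this, hu, hnZ]
    ring
  have h2 : (p : ℤ) ^ (e + 1) ∣ (g ^ n) ^ (p - 1) - 1 := by
    rw [← pow_mul, mul_comm n]
    exact pow_adic hp hg hpn
  have h3 : (p : ℤ) ^ (e + 1) ∣ (T ^ (2 * K)) ^ (p - 1) - 1 := by
    rw [hT, ← pow_mul, ← pow_mul, show n * (2 * K * (p - 1)) = (p - 1) * (n * (2 * K)) by ring]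
    exact pow_adic hp hc (Dvd.dvd.mul_right hpn _)
  have h4 := sq_dvd_add_pow_sub_sub ((p : ℤ) ^ e * u) (T ^ (2 * K)) (p - 1)
  rw [← h1] at h4
  have h5 : (p : ℤ) ^ (e + 1) ∣ ((p : ℤ) ^ e * u) ^ 2 := by
    rw [mul_pow, ← pow_mul]
    exact Dvd.dvd.mul_right (pow_dvd_pow _ (by omega)) _
  have h6 := h5.trans h4
  have h7 : (p : ℤ) ^ (e + 1) ∣
      (T ^ (2 * K)) ^ (p - 1 - 1) * ((p : ℤ) ^ e * u) * ((p - 1 : ℕ) : ℤ) := by
    have h8 := dvd_sub (dvd_sub h2 h3) h6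
    have h9 : (g ^ n) ^ (p - 1) - 1 - ((T ^ (2 * K)) ^ (p - 1) - 1) -
        ((g ^ n) ^ (p - 1) - (T ^ (2 * K)) ^ (p - 1 - 1) * ((p : ℤ) ^ e * u) * ((p - 1 : ℕ) : ℤ) -
          (T ^ (2 * K)) ^ (p - 1)) =
        (T ^ (2 * K)) ^ (p - 1 - 1) * ((p : ℤ) ^ e * u) * ((p - 1 : ℕ) : ℤ) := by ring
    rwa [h9] at h8
  have h8 : (p : ℤ) ∣ (T ^ (2 * K)) ^ (p - 1 - 1) * u * ((p - 1 : ℕ) : ℤ) := by
    have h9 : (T ^ (2 * K)) ^ (p - 1 - 1) * ((p : ℤ) ^ e * u) * ((p - 1 : ℕ) : ℤ) =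
        (p : ℤ) ^ e * ((T ^ (2 * K)) ^ (p - 1 - 1) * u * ((p - 1 : ℕ) : ℤ)) := by ring
    rw [h9, pow_succ] at h7
    exact (mul_dvd_mul_iff_left (pow_ne_zero _ hp0)).1 h7
  have hp1 : ¬ (p : ℤ) ∣ ((p - 1 : ℕ) : ℤ) := by
    intro h
    have h9 : p ∣ p - 1 := by exact_mod_cast h
    have h10 := Nat.le_of_dvd (by have := hp.two_le; omega) h9
    have := hp.two_le
    omega
  have hTT : ∀ i : ℕ, ¬ (p : ℤ) ∣ T ^ i := fun i h => hTp (hpZ.dvd_of_dvd_pow h)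
  have h9 : (p : ℤ) ∣ u := by
    rcases hpZ.dvd_or_dvd h8 with h | h
    · rcases hpZ.dvd_or_dvd h with h | h
      · rw [← pow_mul] at h
        exact absurd h (hTT _)
      · exact h
    · exact absurd h hp1
  have h10 : (p : ℤ) ∣ 2 * (2 * K + 1) * K * T ^ (2 * K - 1) * n' := by
    have h11 : (p : ℤ) ∣ (p : ℤ) ^ e * n' ^ 2 * r := by
      rw [mul_assoc]
      exact Dvd.dvd.mul_right (dvd_pow_self _ he.ne') _
    have h12 := dvd_sub h11 h9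
    rwa [hu, show (p : ℤ) ^ e * n' ^ 2 * r - (-(2 * (2 * K + 1) * K * T ^ (2 * K - 1) * n') +
      (p : ℤ) ^ e * n' ^ 2 * r) = 2 * (2 * K + 1) * K * T ^ (2 * K - 1) * n' by ring] at h12
  have h11 : (p : ℤ) ∣ 2 * ((((2 * K + 1) * K : ℕ)) : ℤ) := by
    rcases hpZ.dvd_or_dvd h10 with h | h
    · rcases hpZ.dvd_or_dvd h with h | h
      · push_cast
        rwa [← mul_assoc]
      · exact absurd h (hTT _)
    · exact absurd (by exact_mod_cast h) hn'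
  rcases hpZ.dvd_or_dvd h11 with h | h
  · have h12 : p ∣ 2 := by exact_mod_cast h
    exact absurd ((Nat.prime_dvd_prime_iff_eq hp Nat.prime_two).1 h12) hp2
  · exact_mod_cast h

/-- the case of a prime `p ≥ 5` dividing `n` -/
theorem case_p {p : ℕ} (hp : p.Prime) (hp2 : p ≠ 2) (hp3 : p ≠ 3) {c g T : ℤ}
    (hc : ¬ (p : ℤ) ∣ c) (hg : ¬ (p : ℤ) ∣ g) {n n' e K : ℕ} (he : 0 < e) (hn : n = p ^ e * n')
    (hn' : ¬ p ∣ n') (hK : 0 < K) (hq : (2 * K + 1).Prime) (hT : T = c ^ n)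
    (hW : W T n K ^ 2 = g ^ n) (hU : U T n K = 1 ∨ U T n K = -1) : False := by
  have hpZ : Prime (p : ℤ) := Nat.prime_iff_prime_int.1 hp
  have hp0 : (p : ℤ) ≠ 0 := hpZ.ne_zero
  have hc0 : c ≠ 0 := by
    rintro rfl
    exact hc (dvd_zero _)
  have hT0 : T ≠ 0 := by rw [hT]; exact pow_ne_zero _ hc0
  have hn0 : n ≠ 0 := by
    rw [hn]
    refine mul_ne_zero (pow_ne_zero _ hp.ne_zero) ?_
    rintro rfl
    exact hn' (dvd_zero _)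
  have hn0Z : (n : ℤ) ≠ 0 := by exact_mod_cast hn0
  have hpn : p ^ e ∣ n := ⟨n', hn⟩
  have hU2 : U T n K ^ 2 = 1 := by
    rcases hU with h | h <;> rw [h] <;> norm_num
  have hUp : ¬ (p : ℤ) ∣ U T n K := by
    intro h
    have h1 : (p : ℤ) ∣ U T n K ^ 2 := dvd_pow h two_ne_zero
    rw [hU2] at h1
    exact hpZ.not_dvd_one h1
  -- `p ≠ 2 K + 1`
  have hpq : ¬ p ∣ 2 * K + 1 := by
    intro h
    apply hUp
    have h1 := U_mod_n (K := K) (s := 0) (e := e) hT0 hn0Z hp hp3 he (by simp) (by exact_mod_cast hpn)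
    have h2 : (p : ℤ) ∣ U T n K - (2 * K + 1) * T ^ K := by
      refine dvd_trans ?_ h1
      push_cast
      rw [zero_add]
      exact dvd_pow_self _ he.ne'
    have h3 : (p : ℤ) ∣ (2 * K + 1) * T ^ K := by
      apply Dvd.dvd.mul_right
      exact_mod_cast h
    have h4 := dvd_add h2 h3
    rwa [sub_add_cancel] at h4
  have hpK : p ∣ K := by
    rcases (Nat.Prime.dvd_mul hp).1 (p_dvd hp hp2 hc hg he hn hn' hK hT hW) with h | h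
    · exact absurd h hpq
    · exact h
  obtain ⟨s, l, hl, hsl⟩ := Nat.exists_eq_pow_mul_and_not_dvd hK.ne' p hp.ne_one
  have hs : 0 < s := by
    rcases Nat.eq_zero_or_pos s with rfl | h
    · rw [pow_zero, one_mul] at hsl
      rw [hsl] at hpK
      exact absurd hpK hl
    · exact h
  have hpsK : p ^ s ∣ K := ⟨l, hsl⟩
  have h1 := U_mod_n (K := K) (s := s) (e := e) hT0 hn0Z hp hp3 he hpsK (by exact_mod_cast hpn)
  push_cast at h1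
  have h2 : (p : ℤ) ^ (s + e) ∣ 1 - (((2 * K + 1) * T ^ K) ^ 2) := by
    have h3 : 1 - (((2 * K + 1) * T ^ K) ^ 2) = (U T n K - (2 * K + 1) * T ^ K) *
        (U T n K + (2 * K + 1) * T ^ K) := by linear_combination -hU2
    rw [h3]
    exact Dvd.dvd.mul_right h1 _
  have h3 : (p : ℤ) ^ (s + e) ∣ 1 - ((((2 * K + 1) * T ^ K) ^ 2)) ^ (p - 1) :=
    h2.trans (one_sub_dvd_one_sub_pow _ _)
  have h4 : (p : ℤ) ^ (s + e) ∣ (T ^ (2 * K)) ^ (p - 1) - 1 := by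
    rw [hT, ← pow_mul, ← pow_mul, show n * (2 * K * (p - 1)) = (p - 1) * (n * (2 * K)) by ring]
    have h5 : p ^ (s + e) ∣ n * (2 * K) := by
      rw [pow_add, mul_comm]
      exact mul_dvd_mul hpn (Dvd.dvd.mul_left hpsK _)
    exact (pow_dvd_pow _ (Nat.le_succ _)).trans (pow_adic hp hc h5)
  have h5 : (p : ℤ) ^ (s + e) ∣ 1 - ((2 * (K : ℤ) + 1) ^ 2) ^ (p - 1) := by
    have h6 : 1 - ((2 * (K : ℤ) + 1) ^ 2) ^ (p - 1) =
        (1 - ((((2 * K + 1) * T ^ K) ^ 2)) ^ (p - 1)) +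
          ((2 * (K : ℤ) + 1) ^ 2) ^ (p - 1) * ((T ^ (2 * K)) ^ (p - 1) - 1) := by
      rw [mul_pow (2 * (K : ℤ) + 1) (T ^ K) 2, ← pow_mul T K 2, mul_comm K 2, mul_pow _ (T ^ (2 * K))]
      ring
    rw [h6]
    exact dvd_add h3 (Dvd.dvd.mul_left h4 _)
  -- `(2 K + 1) ^ (2 (p - 1)) = 1 + 4 (p - 1) K` modulo `K ^ 2`
  have h6 := sq_dvd_add_pow_sub_sub (2 * (K : ℤ)) 1 (2 * (p - 1))
  have h7 : (p : ℤ) ^ (s + 1) ∣ (2 * (K : ℤ)) ^ 2 := by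
    have h8 : (p : ℤ) ^ s ∣ (K : ℤ) := by exact_mod_cast hpsK
    have h9 : (p : ℤ) ^ (s + 1) ∣ ((p : ℤ) ^ s) ^ 2 := by
      rw [← pow_mul]
      exact pow_dvd_pow _ (by omega)
    refine h9.trans (pow_dvd_pow_of_dvd ?_ 2)
    exact Dvd.dvd.mul_left h8 _
  have h8 := h7.trans h6
  rw [one_pow, one_pow, one_mul, add_comm (1 : ℤ), pow_mul] at h8
  have h9 : (p : ℤ) ^ (s + 1) ∣ 1 - ((2 * (K : ℤ) + 1) ^ 2) ^ (p - 1) :=
    (pow_dvd_pow _ (by omega)).trans h5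
  have h10 := dvd_add h8 h9
  rw [show ((2 * (K : ℤ) + 1) ^ 2) ^ (p - 1) - 2 * (K : ℤ) * ((2 * (p - 1) : ℕ) : ℤ) - 1 +
    (1 - ((2 * (K : ℤ) + 1) ^ 2) ^ (p - 1)) = -(2 * (K : ℤ) * ((2 * (p - 1) : ℕ) : ℤ)) by ring,
    dvd_neg] at h10
  have h11 : p ^ (s + 1) ∣ 2 * K * (2 * (p - 1)) := by exact_mod_cast h10
  rw [hsl, pow_succ, show 2 * (p ^ s * l) * (2 * (p - 1)) = p ^ s * (4 * l * (p - 1)) by ring] at h11
  have h12 := Nat.dvd_of_mul_dvd_mul_left (pow_pos hp.pos s) h11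
  rcases (Nat.Prime.dvd_mul hp).1 h12 with h | h
  · rcases (Nat.Prime.dvd_mul hp).1 h with h | h
    · have h13 : p ∣ 2 ^ 2 := h
      exact hp2 ((Nat.prime_dvd_prime_iff_eq hp Nat.prime_two).1 (hp.dvd_of_dvd_pow h13))
    · exact hl h
  · have h13 := Nat.le_of_dvd (by have := hp.two_le; omega) h
    have := hp.two_le
    omega

end Pool.Agent.Lib_MP_6050fa_q
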