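import Pool.Agent.Lib_MP_6050fa_q.EvenA

/-!
MP_6050fa_nt.  The case `n` even, `q = 2 K + 1` not a divisor of `T`, continued: `n = 2 3 ^ e` and
`4 ∣ n`.
-/

set_option autoImplicit false

namespace Pool.Agent.Lib_MP_6050fa_q

open Finset

/-- the case `n = 2 * 3 ^ e` -/
theorem case_three {c g T : ℤ} (hc : ¬ (3 : ℤ) ∣ c) (hg : ¬ (3 : ℤ) ∣ g) {n e K : ℕ} (he : 0 < e)
    (hn : n = 3 ^ e * 2) (hK : 1 < K) (hq : (2 * K + 1).Prime) (hT : T = c ^ n)
    (hW : W T n K ^ 2 = g ^ n) (hU : U T n K = 1 ∨ U T n K = -1) : False := by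
  have h3Z : Prime (3 : ℤ) := Int.prime_three
  have hc0 : c ≠ 0 := by
    rintro rfl
    exact hc (dvd_zero _)
  have hT0 : T ≠ 0 := by rw [hT]; exact pow_ne_zero _ hc0
  have hn0 : n ≠ 0 := by rw [hn]; positivity
  have hn0Z : (n : ℤ) ≠ 0 := by exact_mod_cast hn0
  have hpn : 3 ^ e ∣ n := ⟨2, hn⟩
  have h3K : 3 ∣ K := by
    have h := p_dvd (p := 3) Nat.prime_three (by norm_num) (by exact_mod_cast hc)
      (by exact_mod_cast hg) he hn (by norm_num) (by omega : 0 < K) hT hW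
    rcases (Nat.Prime.dvd_mul Nat.prime_three).1 h with h | h
    · have := (Nat.prime_dvd_prime_iff_eq Nat.prime_three hq).1 h
      omega
    · exact h
  obtain ⟨s, l, hl, hsl⟩ := Nat.exists_eq_pow_mul_and_not_dvd (by omega : K ≠ 0) 3 (by norm_num)
  have hs : 0 < s := by
    rcases Nat.eq_zero_or_pos s with rfl | h
    · rw [pow_zero, one_mul] at hsl
      rw [hsl] at h3K
      exact absurd h3K hl
    · exact h
  have hpsK : 3 ^ s ∣ K := ⟨l, hsl⟩
  have h1 := U_mod_three (K := K) (s := s) (e := e) hT0 hn0Z he (by omega) hpsK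
    (by exact_mod_cast hpn)
  push_cast at h1
  set C : ℤ := (((2 * K + 1).choose 3 : ℕ) : ℤ) with hC
  have hC3 : 3 * C = (2 * K + 1) * K * (2 * K - 1) := by
    obtain ⟨k, rfl⟩ : ∃ k, K = k + 1 := ⟨K - 1, by omega⟩
    have h2 := choose_odd k 0
    rw [show 2 * (k + 1) + 1 = 2 * k + 3 by ring] at hC
    have h3 : ((2 * k + 3).choose 3 : ℤ) * 3 = (2 * k + 3) * (k + 1) * (2 * k + 1) := by
      have h4 : (2 * k + 3).choose 3 * 3 = (2 * k + 3) * (k + 1) * (2 * k + 1) := by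
        simpa using h2
      exact_mod_cast h4
    rw [hC]
    push_cast
    linear_combination h3
  have hp3 : ∀ N : ℕ, (3 : ℤ) ^ (e + 1) ∣ c ^ (2 * (3 ^ e * N)) - 1 := by
    intro N
    have := pow_adic (p := 3) Nat.prime_three (c := c) (by exact_mod_cast hc) (e := e)
      (N := 3 ^ e * N) (dvd_mul_right _ _)
    simpa using this
  have hTK : (3 : ℤ) ^ (s + e) ∣ T ^ K - 1 := by
    have h2 := pow_adic (p := 3) Nat.prime_three (c := c) (by exact_mod_cast hc) (e := s + e)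
      (N := 3 ^ e * K) (by rw [pow_add, mul_comm]; exact Nat.mul_dvd_mul_left _ hpsK)
    have h3 : T ^ K = c ^ ((3 - 1) * (3 ^ e * K)) := by
      rw [hT, ← pow_mul, hn]
      congr 1
      ring
    rw [h3]
    exact (pow_dvd_pow _ (Nat.le_succ _)).trans (by exact_mod_cast h2)
  have hTK1 : (3 : ℤ) ∣ T ^ (K - 1) - 1 := by
    have h3 : T ^ (K - 1) = c ^ (2 * (3 ^ e * (K - 1))) := by
      rw [hT, ← pow_mul, hn]
      congr 1
      ring
    rw [h3]
    exact (dvd_pow_self _ (by omega)).trans (hp3 (K - 1))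
  have hnZ : (n : ℤ) = 3 ^ e * 2 := by
    rw [hn]
    push_cast
    ring
  have hCn : (3 : ℤ) ^ (s + e) ∣ C * n * (T ^ (K - 1) - 1) := by
    obtain ⟨s', rfl⟩ : ∃ s', s = s' + 1 := ⟨s - 1, by omega⟩
    have h2 : (3 : ℤ) ^ s' ∣ C := by
      have h3 : (3 : ℤ) ^ (s' + 1) ∣ 3 * C := by
        rw [hC3]
        have h4 : (3 : ℤ) ^ (s' + 1) ∣ (K : ℤ) := by exact_mod_cast hpsK
        exact Dvd.dvd.mul_right (Dvd.dvd.mul_left h4 _) _
      rw [pow_succ, mul_comm ((3 : ℤ) ^ s')] at h3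
      exact (mul_dvd_mul_iff_left (by norm_num)).1 h3
    rw [show s' + 1 + e = s' + e + 1 by ring, pow_succ, pow_add, hnZ]
    exact mul_dvd_mul (mul_dvd_mul h2 (dvd_mul_right _ _)) hTK1
  have h2 : (3 : ℤ) ^ (s + e) ∣ U T n K - (2 * K + 1) + C * n := by
    have h3 : U T n K - (2 * K + 1) + C * n =
        (U T n K - ((2 * K + 1) * T ^ K - C * T ^ (K - 1) * n)) + (2 * K + 1) * (T ^ K - 1) -
          C * n * (T ^ (K - 1) - 1) := by ring
    rw [h3]
    exact dvd_sub (dvd_add h1 (Dvd.dvd.mul_left hTK _)) hCn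
  have h3K' : (3 : ℤ) ∣ (K : ℤ) := by exact_mod_cast h3K
  have h3n : (3 : ℤ) ∣ (n : ℤ) := by
    rw [hnZ]
    exact Dvd.dvd.mul_right (dvd_pow_self _ he.ne') _
  have hU1 : U T n K = 1 := by
    rcases hU with h | h
    · exact h
    · exfalso
      have h3 : (3 : ℤ) ∣ U T n K - (2 * K + 1) + C * n :=
        (dvd_pow_self _ (by omega)).trans h2
      rw [h] at h3
      obtain ⟨a, ha⟩ := h3K'
      obtain ⟨b, hb⟩ := h3n
      obtain ⟨d, hd⟩ := h3
      rw [hb, ha] at hd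
      have h4 : (3 : ℤ) * (d + 2 * a - C * b) = -2 := by linear_combination -hd
      omega
  rw [hU1] at h2
  obtain ⟨e', rfl⟩ : ∃ e', e = e' + 1 := ⟨e - 1, by omega⟩
  have h4 : (1 : ℤ) - (2 * K + 1) + C * n =
      3 ^ s * (-(2 * l) * (1 - 3 ^ e' * (4 * (K : ℤ) ^ 2 - 1))) := by
    have hKZ : (K : ℤ) = 3 ^ s * l := by
      rw [hsl]
      push_cast
      ring
    have h5 : C * n = 2 * 3 ^ e' * (3 * C) := by
      rw [hnZ]
      ring
    rw [h5, hC3]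
    have h6 : (1 : ℤ) - (2 * K + 1) + 2 * 3 ^ e' * ((2 * K + 1) * K * (2 * K - 1)) =
        K * (-2 * (1 - 3 ^ e' * (4 * (K : ℤ) ^ 2 - 1))) := by ring
    rw [h6]
    nth_rewrite 1 [hKZ]
    ring
  rw [h4, pow_add] at h2
  have h5 := (mul_dvd_mul_iff_left (pow_ne_zero s (by norm_num : (3 : ℤ) ≠ 0))).1 h2
  have h6 : (3 : ℤ) ∣ -(2 * l) * (1 - 3 ^ e' * (4 * (K : ℤ) ^ 2 - 1)) :=
    (dvd_pow_self _ (by omega)).trans h5
  obtain ⟨a, ha⟩ := h3K'
  rcases h3Z.dvd_or_dvd h6 with h | h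
  · have h7 : 3 ∣ 2 * l := by
      rw [dvd_neg] at h
      exact_mod_cast h
    rcases (Nat.Prime.dvd_mul Nat.prime_three).1 h7 with h8 | h8
    · norm_num at h8
    · exact hl h8
  · rcases Nat.eq_zero_or_pos e' with rfl | h0
    · obtain ⟨b, hb⟩ := h
      rw [ha, pow_zero] at hb
      have : (3 : ℤ) * (b + 12 * a ^ 2) = 2 := by linear_combination -hb
      omega
    · have h7 : (3 : ℤ) ∣ 3 ^ e' * (4 * (K : ℤ) ^ 2 - 1) :=
        Dvd.dvd.mul_right (dvd_pow_self _ h0.ne') _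
      have h8 := dvd_add h h7
      rw [sub_add_cancel] at h8
      exact h3Z.not_dvd_one h8

/-- the case `4 ∣ n` -/
theorem case_four {c g T : ℤ} (hc : Odd c) (hg : Odd g) {n n' e K : ℕ} (he : 2 ≤ e)
    (hn : n = 2 ^ e * n') (hn' : ¬ 2 ∣ n') (hK : 0 < K) (hT : T = c ^ n)
    (hW : W T n K ^ 2 = g ^ n) (hU : U T n K = 1 ∨ U T n K = -1) : False := by
  have hTodd : Odd T := by rw [hT]; exact hc.pow
  have hT0 : T ≠ 0 := by
    rintro h
    rw [h] at hTodd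
    exact absurd hTodd (by decide)
  have hn0 : n ≠ 0 := by
    rw [hn]
    refine mul_ne_zero (by positivity) ?_
    rintro rfl
    exact hn' (dvd_zero _)
  have hn0Z : (n : ℤ) ≠ 0 := by exact_mod_cast hn0
  have hpn : 2 ^ e ∣ n := ⟨n', hn⟩
  obtain ⟨s, l, hl, hsl⟩ := Nat.exists_eq_pow_mul_and_not_dvd hK.ne' 2 (by norm_num)
  have hpsK : 2 ^ s ∣ K := ⟨l, hsl⟩
  have h1 := U_mod_n (K := K) (s := s) (e := e) hT0 hn0Z Nat.prime_two (by norm_num) (by omega)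
    hpsK (by exact_mod_cast hpn)
  push_cast at h1
  have hTK : (2 : ℤ) ^ (s + e) ∣ T ^ K - 1 := by
    rw [hT, ← pow_mul]
    refine (pow_dvd_pow _ (by omega)).trans (pow_adic_two' hc (e := s + e) (by omega) ?_)
    rw [pow_add, mul_comm]
    exact mul_dvd_mul hpn hpsK
  have h2 : (2 : ℤ) ^ (s + e) ∣ U T n K - (2 * K + 1) := by
    have h3 : U T n K - (2 * K + 1) = (U T n K - (2 * K + 1) * T ^ K) +
        (2 * K + 1) * (T ^ K - 1) := by ring
    rw [h3]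
    exact dvd_add h1 (Dvd.dvd.mul_left hTK _)
  have hKodd : Odd K := by
    rcases hU with h | h
    · exfalso
      rw [h, show (1 : ℤ) - (2 * K + 1) = -(2 * K) by ring, dvd_neg] at h2
      have h3 : 2 ^ (s + e) ∣ 2 * K := by exact_mod_cast h2
      obtain ⟨e', rfl⟩ : ∃ e', e = e' + 2 := ⟨e - 2, by omega⟩
      rw [hsl, show 2 * (2 ^ s * l) = (2 ^ s * 2) * l by ring,
        show 2 ^ (s + (e' + 2)) = (2 ^ s * 2) * (2 * 2 ^ e') by ring] at h3
      have h4 := Nat.dvd_of_mul_dvd_mul_left (by positivity) h3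
      exact hl ((dvd_mul_right _ _).trans h4)
    · rw [h, show (-1 : ℤ) - (2 * K + 1) = -(2 * K + 2) by ring, dvd_neg] at h2
      have h3 : (2 : ℤ) ^ 2 ∣ 2 * K + 2 := (pow_dvd_pow _ (by omega)).trans h2
      have h4 : 2 ^ 2 ∣ 2 * K + 2 := by exact_mod_cast h3
      rw [Nat.odd_iff]
      omega
  have h3 := Wsq_mod hT0 hn0Z hK
  have hnZ : (n : ℤ) = 2 ^ e * n' := by
    rw [hn]
    push_cast
    ring
  have h4 : (2 : ℤ) ^ (e + 2) ∣ (n : ℤ) ^ 2 := by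
    rw [hnZ, mul_pow, ← pow_mul]
    exact Dvd.dvd.mul_right (pow_dvd_pow _ (by omega)) _
  have h5 := h4.trans h3
  have h6 : (2 : ℤ) ^ (e + 2) ∣ W T n K ^ 2 - 1 := by
    rw [hW]
    exact pow_adic_two' hg (by omega) hpn
  have h7 : (2 : ℤ) ^ (e + 2) ∣ T ^ (2 * K) - 1 := by
    rw [hT, ← pow_mul]
    exact pow_adic_two' hc (by omega) (Dvd.dvd.mul_right hpn _)
  have h8 : (2 : ℤ) ^ (e + 2) ∣ 2 ^ (e + 1) * ((2 * K + 1) * K * T ^ (2 * K - 1) * n') := by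
    have h9 : (2 : ℤ) ^ (e + 1) * ((2 * K + 1) * K * T ^ (2 * K - 1) * n') =
        (W T n K ^ 2 - (T ^ (2 * K) - 2 * (2 * K + 1) * K * T ^ (2 * K - 1) * n)) -
          (W T n K ^ 2 - 1) + (T ^ (2 * K) - 1) := by
      rw [hnZ]
      ring
    rw [h9]
    exact dvd_add (dvd_sub h5 h6) h7
  rw [show e + 2 = (e + 1) + 1 by ring, pow_succ (2 : ℤ) (e + 1)] at h8
  have h9 := (mul_dvd_mul_iff_left (pow_ne_zero (e + 1) (by norm_num : (2 : ℤ) ≠ 0))).1 h8
  have hodd : Odd ((2 * (K : ℤ) + 1) * K * T ^ (2 * K - 1) * n') := by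
    refine Odd.mul (Odd.mul (Odd.mul ?_ ?_) ?_) ?_
    · exact ⟨K, rfl⟩
    · exact_mod_cast hKodd
    · exact hTodd.pow
    · have : Odd n' := by rwa [← Nat.not_even_iff_odd, even_iff_two_dvd]
      exact_mod_cast this
  rw [← Int.not_even_iff_odd] at hodd
  exact hodd (even_iff_two_dvd.2 h9)

end Pool.Agent.Lib_MP_6050fa_q
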