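import Pool.Agent.Lib_MP_6050fa_q.EvenB

/-!
MP_6050fa_nt.  The case `n` even: `q = 3`, and `q ∣ T`; conclusion `even_case`.
-/

set_option autoImplicit false

namespace Pool.Agent.Lib_MP_6050fa_q

open Finset

theorem size_three {t : ℕ} (ht : 3 ≤ t) : 3 * t * (8 * t + 3) ^ 2 < 27 ^ t := by
  induction t, ht using Nat.le_induction with
  | base => norm_num
  | succ t ht ih =>
    rw [pow_succ 27]
    nlinarith [Nat.mul_le_mul ht ht, Nat.mul_le_mul (Nat.mul_le_mul ht ht) ht]

/-- the case `q = 3` -/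
theorem case_q3 {x n : ℕ} {T : ℤ} (hx : 3 ≤ x) (hn : 6 ≤ n) (hT : 0 < T) (hTodd : Odd T)
    (hxn : (x : ℤ) ^ n = T * W T n 1 ^ 2) (hU : U T n 1 = 1 ∨ U T n 1 = -1) : False := by
  have hU1 : U T n 1 = 3 * T - n := by
    rw [show (1 : ℕ) = 0 + 1 from rfl, U_succ, W_zero, U_zero]
    ring
  have hW1 : W T n 1 = T - 3 * n := by
    rw [show (1 : ℕ) = 0 + 1 from rfl, W_succ, W_zero, U_zero]
    ring
  rw [hU1] at hU
  rw [hW1] at hxn
  obtain ⟨t, rfl⟩ : ∃ t : ℕ, T = t := ⟨T.toNat, (Int.toNat_of_nonneg hT.le).symm⟩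
  have ht : 3 ≤ t := by
    obtain ⟨k, hk⟩ := hTodd
    omega
  have h1 : (x : ℤ) ^ n ≤ t * (8 * t + 3) ^ 2 := by
    rw [hxn]
    have h2 : ((t : ℤ) - 3 * n) ^ 2 ≤ (8 * t + 3) ^ 2 := by
      rw [← neg_sq]
      apply pow_le_pow_left₀
      · omega
      · omega
    exact mul_le_mul_of_nonneg_left h2 (by positivity)
  have h2 : 3 ^ n ≤ t * (8 * t + 3) ^ 2 := by
    have h3 : x ^ n ≤ t * (8 * t + 3) ^ 2 := by exact_mod_cast h1
    exact (Nat.pow_le_pow_left hx n).trans h3
  have h3 : 27 ^ t ≤ 3 * 3 ^ n := by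
    rw [← pow_succ', show 27 = 3 ^ 3 by norm_num, ← pow_mul]
    exact Nat.pow_le_pow_right (by norm_num) (by omega)
  have h4 := size_three ht
  nlinarith

/-- `W` modulo `q ^ 2` if `q ∣ T` -/
theorem W_mod_q {n K : ℕ} {T : ℤ} (hK : 2 ≤ K) (hq : (2 * K + 1).Prime) (hT : T ≠ 0)
    (hn : (n : ℤ) ≠ 0) (hqT : ((2 * K + 1 : ℕ) : ℤ) ∣ T) :
    ((2 * K + 1 : ℕ) : ℤ) ^ 2 ∣ W T n K - ((2 * K + 1 : ℕ) : ℤ) * (-n) ^ K := by
  rw [(W_U_eq hT hn K).1]
  unfold Wb
  rw [sum_range_succ]
  have h0 : ((2 * K + 1).choose (2 * K) : ℤ) * T ^ (K - K) * (-n) ^ K =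
      ((2 * K + 1 : ℕ) : ℤ) * (-n) ^ K := by
    simp
  rw [h0, add_sub_cancel_right]
  apply dvd_sum
  intro i hi
  rw [mem_range] at hi
  apply Dvd.dvd.mul_right
  rcases Nat.eq_zero_or_pos i with rfl | hi0
  · apply Dvd.dvd.mul_left
    exact (pow_dvd_pow_of_dvd hqT 2).trans (pow_dvd_pow _ (by omega))
  · rw [pow_two]
    apply mul_dvd_mul
    · exact_mod_cast hq.dvd_choose_self (by omega) (by omega)
    · exact hqT.trans (dvd_pow_self _ (by omega))

theorem pos_step {T n : ℤ} {N : ℕ} (hn : 0 < n) (hT : 4 * n * (N : ℤ) ^ 2 ≤ T) :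
    ∀ j : ℕ, 2 * j + 1 ≤ N →
      0 < W T n j ∧ 0 < U T n j ∧ U T n j ≤ 2 * (2 * j + 1) * W T n j := by
  intro j
  induction j with
  | zero =>
    intro _
    rw [W_zero, U_zero]
    norm_num
  | succ j ih =>
    intro hj
    obtain ⟨h1, h2, h3⟩ := ih (by omega)
    have hj' : 2 * (j : ℤ) + 3 ≤ N := by
      have : 2 * j + 3 ≤ N := by omega
      exact_mod_cast this
    have hj0 : (0 : ℤ) ≤ j := Int.natCast_nonneg j
    have hN2 : (2 * (j : ℤ) + 3) ^ 2 ≤ (N : ℤ) ^ 2 := pow_le_pow_left₀ (by positivity) hj' 2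
    have hT2 : 4 * n * (2 * (j : ℤ) + 3) ^ 2 ≤ T :=
      (mul_le_mul_of_nonneg_left hN2 (by positivity)).trans hT
    set w := W T n j with hw
    set u := U T n j with hu
    have hnj : 0 ≤ n * (j : ℤ) := by positivity
    have hnj2 : 0 ≤ n * (j : ℤ) ^ 2 := by positivity
    have hT3 : 4 * n * (2 * (j : ℤ) + 3) ^ 2 = 16 * (n * (j : ℤ) ^ 2) + 48 * (n * j) + 36 * n := by
      ring
    have hTn : n < T := by linarith
    have h5 : 0 < (T - n) * w - 2 * n * u := by
      have h6 : 2 * n * u ≤ 2 * n * (2 * (2 * j + 1) * w) :=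
        mul_le_mul_of_nonneg_left h3 (by positivity)
      have h7 : 0 < (T - n - 4 * n * (2 * j + 1)) * w := by
        apply mul_pos _ h1
        nlinarith
      nlinarith
    have h8 : 0 < 2 * T * w + (T - n) * u := by
      have := mul_pos (sub_pos.2 hTn) h2
      have := mul_pos (by linarith : 0 < 2 * T) h1
      linarith
    rw [W_succ, U_succ, ← hw, ← hu]
    refine ⟨h5, h8, ?_⟩
    have h9 : 0 ≤ (2 * T - 4 * n - 8 * n * (2 * j + 1) * (2 * j + 3)) * w := by
      apply mul_nonneg _ h1.le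
      nlinarith
    have h10 : 0 ≤ ((T - n) + 4 * n * (2 * j + 3)) * (2 * (2 * j + 1) * w - u) := by
      apply mul_nonneg
      · have : 0 ≤ 4 * n * (2 * (j : ℤ) + 3) := by positivity
        linarith
      · linarith
    push_cast
    nlinarith

theorem size_five {n : ℕ} (hn : 6 ≤ n) : 4 * n ≤ 5 ^ (n - 4) := by
  induction n, hn using Nat.le_induction with
  | base => norm_num
  | succ n hn ih =>
    rw [show n + 1 - 4 = (n - 4) + 1 by omega, pow_succ]
    omega

/-- the case `q ∣ T` -/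
theorem case_qT {x n K : ℕ} {T : ℤ} (hn : 6 ≤ n) (hK : 2 ≤ K) (hq : (2 * K + 1).Prime)
    (hT : 0 < T) (hqT : ((2 * K + 1 : ℕ) : ℤ) ∣ T) (hcop : IsCoprime T n)
    (hxn : (x : ℤ) ^ n = T * W T n K ^ 2) (hU : U T n K = 1 ∨ U T n K = -1) : False := by
  have hn0Z : (n : ℤ) ≠ 0 := by exact_mod_cast (by omega : n ≠ 0)
  have hqZ : Prime ((2 * K + 1 : ℕ) : ℤ) := Nat.prime_iff_prime_int.1 hq
  obtain ⟨r, hr⟩ := W_mod_q hK hq hT.ne' hn0Z hqT
  set q : ℤ := ((2 * K + 1 : ℕ) : ℤ) with hqdef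
  have hW : W T n K = q * ((-n) ^ K + q * r) := by linarith
  have hqn : ¬ q ∣ (n : ℤ) := by
    intro h
    exact hqZ.not_unit (hcop.isUnit_of_dvd' hqT h)
  have hW' : ¬ q ∣ (-n) ^ K + q * r := by
    intro h
    have h1 := dvd_sub h (dvd_mul_right q r)
    rw [add_sub_cancel_right] at h1
    have h2 := hqZ.dvd_of_dvd_pow h1
    rw [dvd_neg] at h2
    exact hqn h2
  have hqx : q ∣ (x : ℤ) := by
    apply hqZ.dvd_of_dvd_pow (n := n)
    rw [hxn]
    exact Dvd.dvd.mul_right hqT _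
  have h1 : q ^ n ∣ T * (q * ((-n) ^ K + q * r)) ^ 2 := by
    rw [← hW, ← hxn]
    exact pow_dvd_pow_of_dvd hqx n
  have h2 : q ^ (n - 2) ∣ T * ((-n) ^ K + q * r) ^ 2 := by
    obtain ⟨n', rfl⟩ : ∃ n', n = n' + 2 := ⟨n - 2, by omega⟩
    rw [Nat.add_sub_cancel]
    rw [show T * (q * ((-((n' + 2 : ℕ) : ℤ)) ^ K + q * r)) ^ 2 =
      q ^ 2 * (T * ((-((n' + 2 : ℕ) : ℤ)) ^ K + q * r) ^ 2) by ring, pow_add, mul_comm (q ^ n')] at h1
    exact (mul_dvd_mul_iff_left (pow_ne_zero 2 hqZ.ne_zero)).1 h1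
  have h3 : IsCoprime (q ^ (n - 2)) (((-n) ^ K + q * r) ^ 2) := by
    apply IsCoprime.pow
    exact (Prime.coprime_iff_not_dvd hqZ).2 hW'
  have h4 : q ^ (n - 2) ∣ T := h3.dvd_of_dvd_mul_right h2
  have h5 := Int.le_of_dvd hT h4
  have h6 : 4 * (n : ℤ) * q ^ 2 ≤ q ^ (n - 2) := by
    have h7 : 4 * n * (2 * K + 1) ^ 2 ≤ (2 * K + 1) ^ (n - 2) := by
      rw [show n - 2 = (n - 4) + 2 by omega, pow_add]
      apply Nat.mul_le_mul_right
      exact (size_five hn).trans (Nat.pow_le_pow_left (by omega) _)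
    rw [hqdef]
    exact_mod_cast h7
  obtain ⟨k, rfl⟩ : ∃ k, K = k + 1 := ⟨K - 1, by omega⟩
  have hn0 : (0 : ℤ) < n := by exact_mod_cast (by omega : 0 < n)
  obtain ⟨h8, h9, -⟩ := pos_step (T := T) (n := n) (N := 2 * (k + 1) + 1) hn0
    (h6.trans h5) k (by omega)
  have hTn : (n : ℤ) < T := by
    have h10 : (1 : ℤ) ≤ q ^ 2 := one_le_pow₀ (by rw [hqdef]; push_cast; omega)
    nlinarith [h6.trans h5]
  have h10 : 1 < U T n (k + 1) := by
    rw [U_succ]
    have h11 := mul_pos (sub_pos.2 hTn) h9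
    nlinarith
  rcases hU with h | h
  · rw [h] at h10
    exact lt_irrefl _ h10
  · rw [h] at h10
    norm_num at h10

/-- `W` modulo `T` -/
theorem W_mod_T (T n : ℤ) (j : ℕ) :
    T ∣ W T n j - (2 * j + 1) * (-n) ^ j ∧ T ∣ U T n j - (-n) ^ j := by
  induction j with
  | zero => rw [W_zero, U_zero]; simp
  | succ j ih =>
    obtain ⟨⟨a, ha⟩, ⟨b, hb⟩⟩ := ih
    rw [W_succ, U_succ]
    have ha' : W T n j = (2 * j + 1) * (-n) ^ j + T * a := by linarith
    have hb' : U T n j = (-n) ^ j + T * b := by linarith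
    constructor
    · refine ⟨(2 * j + 1) * (-n) ^ j + (T - n) * a - 2 * n * b, ?_⟩
      rw [ha', hb', pow_succ]
      push_cast
      ring
    · refine ⟨2 * W T n j + (-n) ^ j + (T - n) * b, ?_⟩
      rw [hb', pow_succ]
      ring

/-- **The case `n` even.** -/
theorem even_case {x n K : ℕ} {T : ℤ} (hn : 6 ≤ n) (hne : Even n)
    (hcop : Nat.Coprime x n) (hK : 0 < K) (hq : (2 * K + 1).Prime) (hT : 0 < T) (hx : 2 ≤ x)
    (hxn : (x : ℤ) ^ n = T * W T n K ^ 2) (hU : U T n K = 1 ∨ U T n K = -1) : False := by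
  have hn0 : n ≠ 0 := by omega
  have hn0Z : (n : ℤ) ≠ 0 := by exact_mod_cast hn0
  have hxodd : Odd x := by
    rw [← Nat.not_even_iff_odd]
    intro h
    have h1 := Nat.dvd_gcd h.two_dvd hne.two_dvd
    rw [hcop] at h1
    omega
  have hxnodd : Odd ((x : ℤ) ^ n) := by
    have : Odd (x : ℤ) := by exact_mod_cast hxodd
    exact this.pow
  have hTodd : Odd T := by
    rw [hxn] at hxnodd
    exact (Int.odd_mul.1 hxnodd).1
  have hcopx : IsCoprime ((x : ℤ) ^ n) (n : ℤ) := (Nat.isCoprime_iff_coprime.2 hcop).pow_left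
  have hcopT : IsCoprime T (n : ℤ) := by
    rw [hxn] at hcopx
    exact hcopx.of_mul_left_left
  have hcopW : IsCoprime (W T n K ^ 2) (n : ℤ) := by
    rw [hxn] at hcopx
    exact hcopx.of_mul_left_right
  rcases Nat.lt_or_ge K 2 with hK1 | hK2
  · have : K = 1 := by omega
    subst this
    exact case_q3 (by obtain ⟨k, hk⟩ := hxodd; omega) hn hT hTodd hxn hU
  · by_cases hqT : ((2 * K + 1 : ℕ) : ℤ) ∣ T
    · exact case_qT hn hK2 hq hT hqT hcopT hxn hU
    · -- `T` and `W` are coprime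
      have hqZ : Prime ((2 * K + 1 : ℕ) : ℤ) := Nat.prime_iff_prime_int.1 hq
      have hTW : IsCoprime T (W T n K) := by
        obtain ⟨a, ha⟩ := (W_mod_T T n K).1
        have h1 : IsCoprime T ((2 * K + 1) * (-(n : ℤ)) ^ K) := by
          apply IsCoprime.mul_right
          · rw [isCoprime_comm]
            have := (Prime.coprime_iff_not_dvd hqZ).2 hqT
            push_cast at this
            exact this
          · exact (hcopT.neg_right).pow_right
        have h2 : W T n K = (2 * K + 1) * (-(n : ℤ)) ^ K + T * a := by linarith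
        rw [h2]
        exact (IsCoprime.add_mul_left_right_iff).2 h1
      have hnat : x ^ n = T.natAbs * (W T n K).natAbs ^ 2 := by
        have h1 := congrArg Int.natAbs hxn
        rw [Int.natAbs_pow, Int.natAbs_natCast, Int.natAbs_mul, Int.natAbs_pow] at h1
        exact h1
      have hcopN : Nat.Coprime T.natAbs ((W T n K).natAbs ^ 2) := by
        apply Nat.Coprime.pow_right
        exact Int.isCoprime_iff_gcd_eq_one.1 hTW
      obtain ⟨c, hc⟩ := exists_eq_pow_of_mul_eq_pow (Nat.isUnit_iff.2 hcopN) hnat.symm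
      obtain ⟨g, hg⟩ := exists_eq_pow_of_mul_eq_pow (Nat.isUnit_iff.2 hcopN.symm)
        ((mul_comm _ _).trans hnat.symm)
      have hTc : T = (c : ℤ) ^ n := by
        rw [← Int.natAbs_of_nonneg hT.le, hc]
        push_cast
        rfl
      have hWg : W T n K ^ 2 = (g : ℤ) ^ n := by
        rw [← Int.natAbs_sq, ← Nat.cast_pow, hg]
        push_cast
        rfl
      have hndvd : ∀ p : ℕ, p.Prime → p ∣ n → ¬ (p : ℤ) ∣ (c : ℤ) ∧ ¬ (p : ℤ) ∣ (g : ℤ) := by
        intro p hp hpn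
        have hpZ : Prime (p : ℤ) := Nat.prime_iff_prime_int.1 hp
        have hpnZ : (p : ℤ) ∣ (n : ℤ) := by exact_mod_cast hpn
        constructor
        · intro h
          apply hpZ.not_unit
          refine hcopT.isUnit_of_dvd' ?_ hpnZ
          rw [hTc]
          exact dvd_pow h hn0
        · intro h
          apply hpZ.not_unit
          refine hcopW.isUnit_of_dvd' ?_ hpnZ
          rw [hWg]
          exact dvd_pow h hn0
      obtain ⟨e, n', hn', hen⟩ := Nat.exists_eq_pow_mul_and_not_dvd hn0 2 (by norm_num)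
      have he0 : e ≠ 0 := by
        rintro rfl
        rw [pow_zero, one_mul] at hen
        rw [← hen] at hn'
        exact hn' hne.two_dvd
      rcases Nat.lt_or_ge e 2 with he1 | he2
      · have : e = 1 := by omega
        subst this
        -- an odd prime factor
        by_cases h5 : ∃ p, p.Prime ∧ p ≠ 2 ∧ p ≠ 3 ∧ p ∣ n
        · obtain ⟨p, hp, hp2, hp3, hpn⟩ := h5
          obtain ⟨f, n'', hn'', hfn⟩ := Nat.exists_eq_pow_mul_and_not_dvd hn0 p hp.ne_one
          have hf0 : 0 < f := by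
            rcases Nat.eq_zero_or_pos f with rfl | h
            · rw [pow_zero, one_mul] at hfn
              rw [← hfn] at hn''
              exact absurd hpn hn''
            · exact h
          exact case_p hp hp2 hp3 (hndvd p hp hpn).1 (hndvd p hp hpn).2 hf0 hfn hn'' hK hq hTc hWg hU
        · push Not at h5
          have hn'0 : n' ≠ 0 := by
            rintro rfl
            exact hn' (dvd_zero _)
          have h3 : n' = 3 ^ n'.primeFactorsList.length := by
            apply Nat.eq_prime_pow_of_unique_prime_dvd hn'0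
            intro d hd hdn
            by_contra hd3
            refine h5 d hd ?_ hd3 (hen ▸ Dvd.dvd.mul_left hdn _)
            rintro rfl
            exact hn' hdn
          have hn3 : n = 3 ^ n'.primeFactorsList.length * 2 := by
            rw [← h3, hen]
            ring
          have hlen : 0 < n'.primeFactorsList.length := by
            rcases Nat.eq_zero_or_pos n'.primeFactorsList.length with h | h
            · rw [h] at hn3
              omega
            · exact h
          have h3n : 3 ∣ n := by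
            rw [hn3]
            exact Dvd.dvd.mul_right (dvd_pow_self _ hlen.ne') _
          exact case_three (by exact_mod_cast (hndvd 3 Nat.prime_three h3n).1)
            (by exact_mod_cast (hndvd 3 Nat.prime_three h3n).2) hlen hn3 (by omega) hq hTc hWg hU
      · have h2 := hndvd 2 Nat.prime_two hne.two_dvd
        have hc2 : Odd (c : ℤ) := by
          rw [← Int.not_even_iff_odd, even_iff_two_dvd]
          exact_mod_cast h2.1
        have hg2 : Odd (g : ℤ) := by
          rw [← Int.not_even_iff_odd, even_iff_two_dvd]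
          exact_mod_cast h2.2
        exact case_four hc2 hg2 he2 hen hn' hK hTc hWg hU

end Pool.Agent.Lib_MP_6050fa_q
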