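import Pool.Agent.Lib_MP_6050fa_q.Main

/-!
MP_6050fa_nt.  Thirty-two even exponents `n` for which `x ^ n + n = y ^ m` has no solution: for
`n = 36` by counting reduced forms, for the others because every class is ambiguous.
-/

set_option autoImplicit false

namespace Pool.Agent.Lib_MP_6050fa_q

open Pool.Agent.Lib_MP_6050fa Zsqrtd

/-- the exponents for which every primitive form is ambiguous -/
def L2 : Finset ℕ :=
  {6, 10, 12, 16, 18, 22, 24, 28, 30, 42, 48, 58, 60, 70, 72, 78, 102, 112, 120, 130, 168, 190,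
    210, 240, 312, 330, 408, 462, 840, 1320, 1848}

/-- the list -/
def L : Finset ℕ :=
  {6, 10, 12, 16, 18, 22, 24, 28, 30, 36, 42, 48, 58, 60, 70, 72, 78, 102, 112, 120, 130, 168, 190,
    210, 240, 312, 330, 408, 462, 840, 1320, 1848}

theorem mem_L {n : ℕ} (h : n ∈ L) : n ∈ L2 ∨ n = 36 := by
  revert n
  decide +kernel

/-- a finite check set which contains `P 36` -/
def Q (n : ℕ) : Finset (ℕ × ℕ) :=
  ((Finset.range 7) ×ˢ (Finset.range 7)).filter
    (fun p => p.2 < p.1 ∧ p.1 ∣ p.2 ^ 2 + n ∧ p.1 ^ 2 ≤ (min p.2 (p.1 - p.2)) ^ 2 + n ∧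
      Nat.gcd (Nat.gcd p.1 (2 * p.2)) ((p.2 ^ 2 + n) / p.1) = 1)

theorem P_sub_Q : P 36 ⊆ Q 36 := by
  rintro ⟨c, b⟩ h
  unfold P at h
  simp only [Finset.mem_filter, Finset.mem_product, Finset.mem_range] at h
  obtain ⟨_, h2, h3, h4, h5⟩ := h
  have h6 := three_le h2 h4
  unfold Q
  simp only [Finset.mem_filter, Finset.mem_product, Finset.mem_range]
  have h7 : c < 7 := by
    by_contra hc
    push Not at hc
    nlinarith
  exact ⟨⟨h7, by omega⟩, h2, h3, h4, h5⟩

theorem check1 : (Q 36).card ≤ 4 := by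
  decide +kernel

theorem check_amb : ∀ n ∈ L2, ∀ c ∈ Finset.range 50, ∀ b ∈ Finset.range c, c ∣ b ^ 2 + n →
    c ^ 2 ≤ (min b (c - b)) ^ 2 + n → Nat.gcd (Nat.gcd c (2 * b)) ((b ^ 2 + n) / c) = 1 →
      (c ∣ 2 * b ∨ c ^ 2 = (min b (c - b)) ^ 2 + n) := by
  decide +kernel

theorem check2 : ∀ n ∈ L, n % 2 = 0 ∧ 6 ≤ n ∧ n ≤ 1848 ∧
    ∀ p ∈ Finset.range 13, ∀ k ∈ Finset.range 11,
      2 ≤ p → 3 ≤ k → p ^ k ∣ n → ¬ p ^ (k + 1) ∣ n → k = 4 ∨ (k = 3 ∧ 3 ∣ n) := by
  decide +kernel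

theorem amb_all {n : ℕ} (hn : n ∈ L2) (h1848 : n ≤ 1848) : ∀ p ∈ P n, Amb n p := by
  rintro ⟨c, b⟩ h
  unfold P at h
  simp only [Finset.mem_filter, Finset.mem_product, Finset.mem_range] at h
  obtain ⟨_, h2, h3, h4, h5⟩ := h
  have h6 := three_le h2 h4
  have h7 : c < 50 := by
    by_contra hc
    push Not at hc
    nlinarith
  exact check_amb n hn c (Finset.mem_range.2 h7) b (Finset.mem_range.2 h2) h3 h4 h5

theorem no_sol {x n y m : ℕ} (hx : 2 ≤ x) (hy : 2 ≤ y) (hm : 2 ≤ m) (hn : n ∈ L) :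
    x ^ n + n ≠ y ^ m := by
  intro h
  obtain ⟨hne, hn6, hn1848, h2⟩ := check2 n hn
  have hmn := coprime_exponents hx (by omega) hy hm (Or.inr h)
  have hmo : m % 2 = 1 := by
    by_contra h3
    have h4 := Nat.dvd_gcd (show 2 ∣ m by omega) (show 2 ∣ n by omega)
    rw [hmn] at h4
    omega
  have hm3 : 3 ≤ m := by omega
  have hcop : Nat.Coprime x n := by
    by_contra hc
    obtain ⟨p, hp, hpx, hpn⟩ := Nat.Prime.not_coprime_iff_dvd.1 hc
    obtain ⟨e, n', he, hn', hpn'⟩ := common' (by omega) hy h hp hpx hpn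
    set k := m * e with hk
    have hk3 : 3 ≤ k := by
      calc 3 ≤ m := hm3
        _ ≤ m * e := Nat.le_mul_of_pos_right m he
    have hpk : p ^ k ∣ n := ⟨n', hn'⟩
    have hle : p ^ k ≤ 1848 := (Nat.le_of_dvd (by omega) hpk).trans hn1848
    have hk8 : k < 11 := by
      by_contra h5
      push Not at h5
      have h6 : 2 ^ 11 ≤ p ^ k :=
        (Nat.pow_le_pow_right two_pos h5).trans (Nat.pow_le_pow_left hp.two_le k)
      omega
    have hp6 : p < 13 := by
      by_contra h5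
      push Not at h5
      have h6 : 13 ^ 3 ≤ p ^ k :=
        (Nat.pow_le_pow_left h5 3).trans (Nat.pow_le_pow_right hp.pos hk3)
      omega
    have hnot : ¬ p ^ (k + 1) ∣ n := by
      intro h5
      rw [hn', pow_succ] at h5
      exact hpn' (Nat.dvd_of_mul_dvd_mul_left (pow_pos hp.pos k) h5)
    rcases h2 p (Finset.mem_range.2 hp6) k (Finset.mem_range.2 hk8) hp.two_le hk3 hpk hnot with
      h5 | ⟨h5, h4⟩
    · have h6 : m ∣ 4 := ⟨e, by rw [← h5, hk]⟩
      have h7 := Nat.le_of_dvd (by norm_num) h6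
      interval_cases m <;> omega
    · have h6 : m ∣ 3 := ⟨e, by rw [← h5, hk]⟩
      have h7 := Nat.le_of_dvd (by norm_num) h6
      have h8 : m = 3 := by omega
      rw [h8] at hmn
      have h9 := Nat.dvd_gcd (dvd_refl 3) h4
      rw [hmn] at h9
      omega
  have hxo : Odd x := by
    rw [← Nat.not_even_iff_odd]
    intro h3
    have h4 := Nat.dvd_gcd h3.two_dvd (show 2 ∣ n by omega)
    rw [hcop] at h4
    omega
  have hyo : Odd y := by
    rw [← Nat.not_even_iff_odd]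
    intro h3
    have h4 : Even (y ^ m) := h3.pow_of_ne_zero (by omega)
    rw [← h, Nat.even_add] at h4
    have h5 : Even n := Nat.even_iff.2 hne
    have h6 := h4.2 h5
    rw [← Nat.not_odd_iff_even] at h6
    exact h6 hxo.pow
  have hsq : x ^ n = 1 * (x ^ (n / 2)) ^ 2 := by
    rw [one_mul, ← pow_mul]
    congr 1
    omega
  rcases mem_L hn with h5 | h5
  · have h3 := amb_one (A := 1) (B := x ^ (n / 2)) (k := 0) (m1 := m) hx (by omega) hyo hy hm h
      hcop hsq squarefree_one (by rw [pow_zero, one_mul]) (Nat.odd_iff.2 hmo)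
      (by rw [mul_one]; exact amb_all h5 hn1848)
    omega
  · have h3 := le_card (A := 1) (B := x ^ (n / 2)) (k := 0) (m1 := m) hx (by omega) hyo hy hm h
      hcop hsq squarefree_one (by rw [pow_zero, one_mul]) (Nat.odd_iff.2 hmo)
    rw [mul_one, h5] at h3
    have h4 := (h3.trans (Finset.card_le_card P_sub_Q)).trans check1
    have h8 : m = 3 := by omega
    rw [h8, h5] at hmn
    exact absurd hmn (by decide)

end Pool.Agent.Lib_MP_6050fa_q
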