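import Pool.Agent.Lib_MP_6050fa.Ideals

/-!
MP_6050fa_nt.  Invertible ideals of `ℤ[√(-n)]` are equivalent to ideals `(c, b + √(-n))` which belong
to primitive reduced forms.
-/

set_option autoImplicit false

namespace Pool.Agent.Lib_MP_6050fa_q

open Pool.Agent.Lib_MP_6050fa Zsqrtd

variable {n : ℕ}

/-- reduction with the exact conditions of Gauss -/
theorem red' (hn : 0 < n) : ∀ (A : ℕ), 0 < A → ∀ B : ℤ, (A : ℤ) ∣ B ^ 2 + n →
    ∃ c b : ℕ, 0 < c ∧ b < c ∧ c ∣ b ^ 2 + n ∧ c ^ 2 ≤ (min b (c - b)) ^ 2 + n ∧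
      ∃ α β : ℤ√(-(n : ℤ)), α ≠ 0 ∧ β ≠ 0 ∧
        Ideal.span {α} * J n A B = Ideal.span {β} * J n c b := by
  intro A
  induction A using Nat.strong_induction_on with
  | _ A ih =>
    intro hA B hAB
    have := nzd hn
    have := dom hn
    -- balanced representative
    obtain ⟨k, hk⟩ : ∃ k : ℤ, 2 * |B + k * A| ≤ A := by
      have hA' : (0 : ℤ) < A := by exact_mod_cast hA
      refine ⟨-((2 * B + A) / (2 * A)), ?_⟩
      have h1 := Int.emod_add_mul_ediv (2 * B + A) (2 * A)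
      have h2 := Int.emod_nonneg (2 * B + A) (by omega : (2 * (A : ℤ)) ≠ 0)
      have h3 := Int.emod_lt_of_pos (2 * B + A) (by omega : (0 : ℤ) < 2 * A)
      set e := (2 * B + (A : ℤ)) / (2 * A) with he
      have h4 : 2 * (B + -e * A) = (2 * B + A) % (2 * A) - A := by linarith
      have h5 : |2 * (B + -e * A)| ≤ A := by
        rw [h4, abs_le]
        constructor <;> linarith
      rw [abs_mul] at h5
      simpa using h5
    set B' : ℤ := B + k * A with hB'
    have hshift : J n A B = J n A B' := (J_shift (n := n) A B k).symm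
    have hdvd : (A : ℤ) ∣ B' ^ 2 + n := by
      have : B' ^ 2 + n = (B ^ 2 + n) + A * (2 * B * k + k ^ 2 * A) := by rw [hB']; ring
      rw [this]
      exact dvd_add hAB (dvd_mul_right _ _)
    obtain ⟨C, hC⟩ := hdvd
    have hA' : (0 : ℤ) < A := by exact_mod_cast hA
    have hn' : (0 : ℤ) < n := by exact_mod_cast hn
    have hCpos : 0 < C := by
      by_contra hc
      push Not at hc
      nlinarith [sq_nonneg B']
    by_cases hAC : (A : ℤ) ≤ C
    · -- reduced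
      have h2 := Int.emod_nonneg B' hA'.ne'
      have h3 := Int.emod_lt_of_pos B' hA'
      have h4 : (((B' % A).toNat : ℕ) : ℤ) = B' % A := Int.toNat_of_nonneg h2
      refine ⟨A, (B' % A).toNat, hA, by omega, ?_, ?_, 1, 1, one_ne_zero, one_ne_zero, ?_⟩
      · have h5 : (A : ℤ) ∣ (((B' % A).toNat : ℕ) : ℤ) ^ 2 + n := by
          rw [h4]
          have h6 := Int.emod_add_mul_ediv B' A
          have h7 : (B' % A) ^ 2 + n =
              (B' ^ 2 + n) + A * (-(2 * B' * (B' / A)) + A * (B' / A) ^ 2) := by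
            have : B' % A = B' - A * (B' / A) := by linarith
            rw [this]
            ring
          rw [h7, hC]
          exact dvd_add (dvd_mul_right _ _) (dvd_mul_right _ _)
        exact_mod_cast h5
      · have hmin : ((min (B' % A).toNat (A - (B' % A).toNat) : ℕ) : ℤ) = |B'| := by
          rcases le_or_gt 0 B' with h0 | h0
          · rw [abs_of_nonneg h0] at hk ⊢
            have h5 : B' % A = B' := Int.emod_eq_of_lt h0 (by omega)
            rw [h5] at h4 ⊢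
            omega
          · rw [abs_of_neg h0] at hk ⊢
            have h5 : B' % A = B' + A := by
              have h6 : (B' + A) % A = B' + A := Int.emod_eq_of_lt (by omega) (by omega)
              rw [Int.add_emod_right] at h6
              exact h6
            rw [h5] at h4 ⊢
            omega
        have h6 : (A : ℤ) ^ 2 ≤ B' ^ 2 + n := by rw [hC]; nlinarith
        have h7 : (A : ℤ) ^ 2 ≤ ((min (B' % A).toNat (A - (B' % A).toNat) : ℕ) : ℤ) ^ 2 + n := by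
          rw [hmin, sq_abs]
          exact h6
        exact_mod_cast h7
      · rw [hshift, h4]
        congr 1
        have h6 := Int.emod_add_mul_ediv B' A
        have h7 : B' = B' % A + (B' / A) * A := by linarith
        conv_lhs => rw [h7]
        exact J_shift _ _ _
    · push Not at hAC
      obtain ⟨c0, hc0⟩ : ∃ c0 : ℕ, C = c0 := ⟨C.toNat, (Int.toNat_of_nonneg hCpos.le).symm⟩
      subst hc0
      have hc1 : 0 < c0 := by exact_mod_cast hCpos
      have hc2 : c0 < A := by exact_mod_cast hAC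
      obtain ⟨c, b, h1, h2, h3, h4, α, β, hα, hβ, h5⟩ := ih c0 hc2 hc1 (-B')
        ⟨A, by rw [neg_sq, hC]; ring⟩
      refine ⟨c, b, h1, h2, h3, h4, α * ⟨B', -1⟩, β * (A : ℤ√(-(n : ℤ))), ?_, ?_, ?_⟩
      · refine mul_ne_zero hα fun h => ?_
        have := congrArg Zsqrtd.im h
        simp at this
      · refine mul_ne_zero hβ fun h => ?_
        have := congrArg Zsqrtd.re h
        simp at this
        omega
      · rw [hshift, ← Ideal.span_singleton_mul_span_singleton, mul_assoc,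
          J_swap (n := n) (A : ℤ) B' c0 (by rw [← hC]), mul_left_comm, h5,
          ← Ideal.span_singleton_mul_span_singleton, ← mul_assoc, mul_comm (Ideal.span {β})]
        simp

/-- an invertible ideal `(c, b + √(-n))` belongs to a primitive form -/
theorem prim (hn : 0 < n) {c b : ℕ} (hc : c ∣ b ^ 2 + n) {K : Ideal (ℤ√(-(n : ℤ)))}
    {δ : ℤ√(-(n : ℤ))} (hδ : δ ≠ 0) (hK : J n c b * K = Ideal.span {δ}) :
    Nat.gcd (Nat.gcd c (2 * b)) ((b ^ 2 + n) / c) = 1 := by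
  have := nzd hn
  have := dom hn
  set d := Nat.gcd (Nat.gcd c (2 * b)) ((b ^ 2 + n) / c) with hd
  obtain ⟨C, hC⟩ := hc
  obtain ⟨c', hc'⟩ : d ∣ c := (Nat.gcd_dvd_left _ _).trans (Nat.gcd_dvd_left _ _)
  obtain ⟨b', hb'⟩ : d ∣ 2 * b := (Nat.gcd_dvd_left _ _).trans (Nat.gcd_dvd_right _ _)
  have hc0 : 0 < c := by
    rcases Nat.eq_zero_or_pos c with h | h
    · rw [h, Nat.zero_mul] at hC
      omega
    · exact h
  obtain ⟨C', hC'⟩ : d ∣ C := by
    have h1 : (b ^ 2 + n) / c = C := by rw [hC]; exact Nat.mul_div_cancel_left C hc0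
    rw [← h1]
    exact Nat.gcd_dvd_right _ _
  set z : ℤ√(-(n : ℤ)) := ⟨b, 1⟩ with hz
  have hJ : J n c b = Ideal.span {((c : ℤ) : ℤ√(-(n : ℤ))), z} := rfl
  have hcJ : ((c : ℤ) : ℤ√(-(n : ℤ))) ∈ J n c b := by
    rw [hJ]
    exact Ideal.subset_span (Set.mem_insert _ _)
  have hzJ : z ∈ J n c b := by
    rw [hJ]
    exact Ideal.subset_span (Set.mem_insert_of_mem _ rfl)
  have e1 : ((c : ℤ) : ℤ√(-(n : ℤ))) = ((d : ℤ) : ℤ√(-(n : ℤ))) * ((c' : ℤ) : ℤ√(-(n : ℤ))) := by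
    rw [← Int.cast_mul]
    congr 1
    rw [hc'] 
    push_cast
    ring
  have e2 : z * z = ((d : ℤ) : ℤ√(-(n : ℤ))) * (((b' : ℤ) : ℤ√(-(n : ℤ))) * z -
      ((C' : ℤ) : ℤ√(-(n : ℤ))) * ((c : ℤ) : ℤ√(-(n : ℤ)))) := by
    have h1 : (b : ℤ) ^ 2 + n = c * (d * C') := by
      rw [← Nat.cast_mul d C', ← hC', ← Nat.cast_mul, ← hC]
      push_cast
      ring
    have h2 : 2 * (b : ℤ) = d * b' := by exact_mod_cast hb'
    rw [hz]
    ext
    · rw [re_mul, re_smul, re_sub, re_smul, re_smul]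
      simp only [re_intCast]
      linear_combination b * h2 - h1
    · rw [im_mul, im_smul, im_sub, im_smul, im_smul]
      simp only [im_intCast]
      linear_combination h2
  have h1 : J n c b * J n c b ≤ Ideal.span {((d : ℤ) : ℤ√(-(n : ℤ)))} * J n c b := by
    rw [hJ, Ideal.span_pair_mul_span_pair, Ideal.span_le]
    rw [← hJ]
    rintro w hw
    rw [SetLike.mem_coe, Ideal.mem_span_singleton_mul]
    rcases hw with rfl | rfl | rfl | rfl
    · refine ⟨((c' : ℤ) : ℤ√(-(n : ℤ))) * ((c : ℤ) : ℤ√(-(n : ℤ))), Ideal.mul_mem_left _ _ hcJ, ?_⟩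
      nth_rewrite 2 [e1]
      ring
    · refine ⟨((c' : ℤ) : ℤ√(-(n : ℤ))) * z, Ideal.mul_mem_left _ _ hzJ, ?_⟩
      rw [e1]
      ring
    · refine ⟨((c' : ℤ) : ℤ√(-(n : ℤ))) * z, Ideal.mul_mem_left _ _ hzJ, ?_⟩
      rw [e1]
      ring
    · exact ⟨_, Ideal.sub_mem _ (Ideal.mul_mem_left _ _ hzJ) (Ideal.mul_mem_left _ _ hcJ), e2.symm⟩
  have h2 : J n c b * Ideal.span {δ} ≤ Ideal.span {((d : ℤ) : ℤ√(-(n : ℤ)))} * Ideal.span {δ} := by
    rw [← hK, ← mul_assoc, ← mul_assoc]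
    exact Ideal.mul_mono_left h1
  have h3 : z * δ ∈ Ideal.span {((d : ℤ) : ℤ√(-(n : ℤ)))} * Ideal.span {δ} :=
    h2 (Ideal.mul_mem_mul hzJ (Ideal.mem_span_singleton_self δ))
  rw [Ideal.span_singleton_mul_span_singleton, Ideal.mem_span_singleton] at h3
  obtain ⟨w, hw⟩ := h3
  have h4 : z = ((d : ℤ) : ℤ√(-(n : ℤ))) * w := by
    apply mul_right_cancel₀ hδ
    rw [hw]
    ring
  have h5 := congrArg Zsqrtd.im h4
  rw [im_smul] at h5
  have h6 : (d : ℤ) ∣ 1 := ⟨w.im, h5⟩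
  have h7 : d ∣ 1 := by exact_mod_cast h6
  exact Nat.dvd_one.1 h7

/-- the finite set of primitive reduced data -/
def P (n : ℕ) : Finset (ℕ × ℕ) :=
  ((Finset.range (n + 1)) ×ˢ (Finset.range (n + 1))).filter
    (fun p => p.2 < p.1 ∧ p.1 ∣ p.2 ^ 2 + n ∧ p.1 ^ 2 ≤ (min p.2 (p.1 - p.2)) ^ 2 + n ∧
      Nat.gcd (Nat.gcd p.1 (2 * p.2)) ((p.2 ^ 2 + n) / p.1) = 1)

theorem three_le {c b : ℕ} (h2 : b < c) (h4 : c ^ 2 ≤ (min b (c - b)) ^ 2 + n) :
    3 * c ^ 2 ≤ 4 * n := by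
  have h5 : 2 * min b (c - b) ≤ c := by omega
  have h6 : (2 * min b (c - b)) ^ 2 ≤ c ^ 2 := Nat.pow_le_pow_left h5 2
  rw [mul_pow] at h6
  omega

theorem mem_P {c b : ℕ} (h2 : b < c) (h3 : c ∣ b ^ 2 + n) (h4 : c ^ 2 ≤ (min b (c - b)) ^ 2 + n)
    (h5 : Nat.gcd (Nat.gcd c (2 * b)) ((b ^ 2 + n) / c) = 1) : (c, b) ∈ P n := by
  have h6 := three_le h2 h4
  unfold P
  simp only [Finset.mem_filter, Finset.mem_product, Finset.mem_range]
  refine ⟨⟨?_, ?_⟩, h2, h3, h4, h5⟩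
  · by_contra hc
    push Not at hc
    nlinarith
  · by_contra hc
    push Not at hc
    nlinarith

theorem P_sub : P n ⊆ S n := by
  rintro ⟨c, b⟩ h
  unfold P at h
  simp only [Finset.mem_filter, Finset.mem_product, Finset.mem_range] at h
  obtain ⟨_, h2, h3, h4, _⟩ := h
  exact mem_S (by omega) h2 (three_le h2 h4) h3

/-- the form `(c, 2 b, (b ^ 2 + n) / c)` is ambiguous -/
def Amb (n : ℕ) (p : ℕ × ℕ) : Prop :=
  p.1 ∣ 2 * p.2 ∨ p.1 ^ 2 = (min p.2 (p.1 - p.2)) ^ 2 + n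

/-- the square of an ambiguous ideal is principal -/
theorem amb_sq {c b : ℕ} (hc0 : 0 < c) (hbc : b < c) (hc : c ∣ b ^ 2 + n)
    (hg : Nat.gcd (Nat.gcd c (2 * b)) ((b ^ 2 + n) / c) = 1) (ha : Amb n (c, b)) :
    ∃ δ : ℤ√(-(n : ℤ)), J n c b ^ 2 = Ideal.span {δ} := by
  obtain ⟨C, hC⟩ := hc
  have hCd : (b ^ 2 + n) / c = C := by rw [hC]; exact Nat.mul_div_cancel_left C hc0
  rw [hCd] at hg
  rcases ha with h | h
  · -- `c ∣ 2 b`
    obtain ⟨t, ht⟩ := h
    simp only at ht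
    have hg' : Nat.Coprime c C := by
      rw [ht, Nat.gcd_eq_left (dvd_mul_right c t)] at hg
      exact hg
    obtain ⟨u, v, huv⟩ := Nat.isCoprime_iff_coprime.2 hg'
    refine ⟨((c : ℤ) : ℤ√(-(n : ℤ))), ?_⟩
    rw [pow_two]
    unfold J
    rw [Ideal.span_pair_mul_span_pair]
    set z : ℤ√(-(n : ℤ)) := ⟨b, 1⟩ with hz
    have e1 : z * z = ((c : ℤ) : ℤ√(-(n : ℤ))) * (((t : ℤ) : ℤ√(-(n : ℤ))) * z -
        ((C : ℤ) : ℤ√(-(n : ℤ)))) := by
      have h1 : (b : ℤ) ^ 2 + n = c * C := by exact_mod_cast hC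
      have h2 : 2 * (b : ℤ) = c * t := by exact_mod_cast ht
      rw [hz]
      ext
      · rw [re_mul, re_smul, re_sub, re_smul]
        simp only [re_intCast]
        linear_combination b * h2 - h1
      · rw [im_mul, im_smul, im_sub, im_smul]
        simp only [im_intCast]
        linear_combination h2
    apply _root_.le_antisymm
    · rw [Ideal.span_le]
      rintro w hw
      rw [SetLike.mem_coe, Ideal.mem_span_singleton]
      rcases hw with rfl | rfl | rfl | rfl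
      · exact dvd_mul_left _ _
      · exact dvd_mul_right _ _
      · exact dvd_mul_left _ _
      · rw [e1]; exact dvd_mul_right _ _
    · rw [Ideal.span_singleton_le_iff_mem]
      have hm1 : ((c : ℤ) : ℤ√(-(n : ℤ))) * ((c : ℤ) : ℤ√(-(n : ℤ))) ∈
          Ideal.span {((c : ℤ) : ℤ√(-(n : ℤ))) * ((c : ℤ) : ℤ√(-(n : ℤ))),
            ((c : ℤ) : ℤ√(-(n : ℤ))) * z, z * ((c : ℤ) : ℤ√(-(n : ℤ))), z * z} :=
        Ideal.subset_span (by simp)
      have hm2 : ((c : ℤ) : ℤ√(-(n : ℤ))) * z ∈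
          Ideal.span {((c : ℤ) : ℤ√(-(n : ℤ))) * ((c : ℤ) : ℤ√(-(n : ℤ))),
            ((c : ℤ) : ℤ√(-(n : ℤ))) * z, z * ((c : ℤ) : ℤ√(-(n : ℤ))), z * z} :=
        Ideal.subset_span (by simp)
      have hm3 : z * z ∈
          Ideal.span {((c : ℤ) : ℤ√(-(n : ℤ))) * ((c : ℤ) : ℤ√(-(n : ℤ))),
            ((c : ℤ) : ℤ√(-(n : ℤ))) * z, z * ((c : ℤ) : ℤ√(-(n : ℤ))), z * z} :=
        Ideal.subset_span (by simp)
      have h3 : (u : ℤ√(-(n : ℤ))) * ((c : ℤ) : ℤ√(-(n : ℤ))) +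
          (v : ℤ√(-(n : ℤ))) * ((C : ℤ) : ℤ√(-(n : ℤ))) = 1 := by
        have h4 := congrArg (fun t : ℤ => (t : ℤ√(-(n : ℤ)))) huv
        simp only [Int.cast_add, Int.cast_mul, Int.cast_one] at h4
        exact h4
      have h5 := Ideal.add_mem _ (Ideal.mul_mem_left _ (u : ℤ√(-(n : ℤ))) hm1)
        (Ideal.mul_mem_left _ (v : ℤ√(-(n : ℤ)))
          (Ideal.sub_mem _ (Ideal.mul_mem_left _ ((t : ℤ) : ℤ√(-(n : ℤ))) hm2) hm3))
      have h6 : (u : ℤ√(-(n : ℤ))) * (((c : ℤ) : ℤ√(-(n : ℤ))) * ((c : ℤ) : ℤ√(-(n : ℤ)))) +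
          (v : ℤ√(-(n : ℤ))) * (((t : ℤ) : ℤ√(-(n : ℤ))) * (((c : ℤ) : ℤ√(-(n : ℤ))) * z) - z * z) =
          ((c : ℤ) : ℤ√(-(n : ℤ))) := by
        rw [e1]
        linear_combination ((c : ℤ) : ℤ√(-(n : ℤ))) * h3
      rwa [h6] at h5
  · -- `c ^ 2 = b' ^ 2 + n`
    simp only at h
    obtain ⟨b', k, hb', hbn, hg'⟩ : ∃ b' k : ℤ, b' + k * c = b ∧ (c : ℤ) ^ 2 = b' ^ 2 + n ∧
        IsCoprime (c : ℤ) (2 * b') := by
      rcases le_or_gt (2 * b) c with h1 | h1
      · have h2 : min b (c - b) = b := by omega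
        rw [h2] at h
        have h3 : C = c := by
          apply Nat.eq_of_mul_eq_mul_left hc0
          rw [← hC, ← h, pow_two]
        rw [h3, Nat.gcd_eq_left (Nat.gcd_dvd_left _ _)] at hg
        refine ⟨b, 0, by ring, by exact_mod_cast h, ?_⟩
        have := Nat.isCoprime_iff_coprime.2 hg
        push_cast at this
        exact this
      · have h2 : min b (c - b) = c - b := by omega
        rw [h2] at h
        have h4 : (c : ℤ) ^ 2 = ((b : ℤ) - c) ^ 2 + n := by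
          have h5 : (c : ℤ) ^ 2 = ((c - b : ℕ) : ℤ) ^ 2 + n := by exact_mod_cast h
          rw [Nat.cast_sub hbc.le] at h5
          linear_combination h5
        have h5 : (c : ℤ) * C = c * (2 * b) := by
          have h6 : (b : ℤ) ^ 2 + n = c * C := by exact_mod_cast hC
          linear_combination -h6 - h4
        have h6 : (C : ℤ) = 2 * b := mul_left_cancel₀ (by exact_mod_cast hc0.ne') h5
        have h7 : C = 2 * b := by exact_mod_cast h6
        rw [h7, Nat.gcd_eq_left (Nat.gcd_dvd_right _ _)] at hg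
        refine ⟨(b : ℤ) - c, 1, by ring, h4, ?_⟩
        obtain ⟨u, v, huv⟩ := Nat.isCoprime_iff_coprime.2 hg
        push_cast at huv
        exact ⟨u + 2 * v, v, by linear_combination huv⟩
    have hJ : J n c b = J n c b' := by
      rw [← hb']
      exact J_shift _ _ _
    refine ⟨⟨b', 1⟩, ?_⟩
    rw [hJ, pow_two]
    unfold J
    rw [Ideal.span_pair_mul_span_pair]
    obtain ⟨u, v, huv⟩ := hg'
    set z : ℤ√(-(n : ℤ)) := ⟨b', 1⟩ with hz
    have e0 : ((c : ℤ) : ℤ√(-(n : ℤ))) * ((c : ℤ) : ℤ√(-(n : ℤ))) = z * ⟨b', -1⟩ := by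
      rw [hz]
      ext
      · rw [re_smul, re_mul]
        simp only [re_intCast]
        linear_combination hbn
      · rw [im_smul, im_mul]
        simp only [im_intCast]
        ring
    have e1 : z * z = ((2 * b' : ℤ) : ℤ√(-(n : ℤ))) * z -
        ((c : ℤ) : ℤ√(-(n : ℤ))) * ((c : ℤ) : ℤ√(-(n : ℤ))) := by
      rw [hz]
      ext
      · rw [re_mul, re_sub, re_smul, re_smul]
        simp only [re_intCast]
        linear_combination hbn
      · rw [im_mul, im_sub, im_smul, im_smul]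
        simp only [im_intCast]
        ring
    apply _root_.le_antisymm
    · rw [Ideal.span_le]
      rintro w hw
      rw [SetLike.mem_coe, Ideal.mem_span_singleton]
      rcases hw with rfl | rfl | rfl | rfl
      · rw [e0]; exact dvd_mul_right _ _
      · exact dvd_mul_left _ _
      · exact dvd_mul_right _ _
      · exact dvd_mul_right _ _
    · rw [Ideal.span_singleton_le_iff_mem]
      have hm1 : ((c : ℤ) : ℤ√(-(n : ℤ))) * ((c : ℤ) : ℤ√(-(n : ℤ))) ∈
          Ideal.span {((c : ℤ) : ℤ√(-(n : ℤ))) * ((c : ℤ) : ℤ√(-(n : ℤ))),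
            ((c : ℤ) : ℤ√(-(n : ℤ))) * z, z * ((c : ℤ) : ℤ√(-(n : ℤ))), z * z} :=
        Ideal.subset_span (by simp)
      have hm2 : ((c : ℤ) : ℤ√(-(n : ℤ))) * z ∈
          Ideal.span {((c : ℤ) : ℤ√(-(n : ℤ))) * ((c : ℤ) : ℤ√(-(n : ℤ))),
            ((c : ℤ) : ℤ√(-(n : ℤ))) * z, z * ((c : ℤ) : ℤ√(-(n : ℤ))), z * z} :=
        Ideal.subset_span (by simp)
      have hm3 : z * z ∈
          Ideal.span {((c : ℤ) : ℤ√(-(n : ℤ))) * ((c : ℤ) : ℤ√(-(n : ℤ))),
            ((c : ℤ) : ℤ√(-(n : ℤ))) * z, z * ((c : ℤ) : ℤ√(-(n : ℤ))), z * z} :=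
        Ideal.subset_span (by simp)
      have h3 : (u : ℤ√(-(n : ℤ))) * ((c : ℤ) : ℤ√(-(n : ℤ))) +
          (v : ℤ√(-(n : ℤ))) * ((2 * b' : ℤ) : ℤ√(-(n : ℤ))) = 1 := by
        have h4 := congrArg (fun t : ℤ => (t : ℤ√(-(n : ℤ)))) huv
        simp only [Int.cast_add, Int.cast_mul, Int.cast_one] at h4
        rw [Int.cast_mul]
        exact h4
      have h5 := Ideal.add_mem _ (Ideal.mul_mem_left _ (u : ℤ√(-(n : ℤ))) hm2)
        (Ideal.mul_mem_left _ (v : ℤ√(-(n : ℤ))) (Ideal.add_mem _ hm3 hm1))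
      have h6 : (u : ℤ√(-(n : ℤ))) * (((c : ℤ) : ℤ√(-(n : ℤ))) * z) +
          (v : ℤ√(-(n : ℤ))) * (z * z + ((c : ℤ) : ℤ√(-(n : ℤ))) * ((c : ℤ) : ℤ√(-(n : ℤ)))) = z := by
        rw [e1]
        linear_combination z * h3
      rwa [h6] at h5

end Pool.Agent.Lib_MP_6050fa_q
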