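import Pool.Agent.Lib_MP_6050fa_q.Adic

/-!
MP_6050fa_nt.  The case `n` odd: `U = ± 1` is impossible if `2 ^ n ∣ T`.
-/

set_option autoImplicit false

namespace Pool.Agent.Lib_MP_6050fa_q

open Finset

theorem sq_lt_two_pow {n : ℕ} (hn : 3 ≤ n) : n ^ 2 < 2 ^ (n + 1) := by
  induction n, hn using Nat.le_induction with
  | base => norm_num
  | succ n hn ih =>
    rw [pow_succ 2]
    nlinarith

/-- lifting the exponent for `n ^ (2 K) - 1` -/
theorem lte_two {n K s l : ℕ} (hn : 3 ≤ n) (hno : Odd n) (hK : K = 2 ^ s * l) (hl : ¬ 2 ∣ l)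
    (h : 2 ^ (s + n + 1) ∣ n ^ (2 * K) - 1) : False := by
  have hl0 : l ≠ 0 := by
    rintro rfl
    exact hl (dvd_zero 2)
  have hK0 : K ≠ 0 := by
    rw [hK]
    exact mul_ne_zero (by positivity) hl0
  have : Fact (Nat.Prime 2) := ⟨Nat.prime_two⟩
  have h2 : ¬ 2 ∣ n := by
    rw [← even_iff_two_dvd, Nat.not_even_iff_odd]
    exact hno
  have h1 := padicValNat.pow_two_sub_pow (x := n) (y := 1) (n := 2 * K) (by omega) (by omega) h2
    (by omega) (even_two_mul K)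
  rw [one_pow] at h1
  have h3 : padicValNat 2 (2 * K) = s + 1 := by
    rw [hK, show 2 * (2 ^ s * l) = 2 ^ (s + 1) * l by ring, padicValNat.mul (by positivity) hl0,
      padicValNat.prime_pow, padicValNat.eq_zero_of_not_dvd hl]
  have hgt : 1 < n ^ (2 * K) := Nat.one_lt_pow (by omega) (by omega)
  have h4 : s + n + 1 ≤ padicValNat 2 (n ^ (2 * K) - 1) :=
    (padicValNat_dvd_iff_le (by omega)).1 h
  have h5 : n + 1 ≤ padicValNat 2 ((n + 1) * (n - 1)) := by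
    rw [padicValNat.mul (by omega) (by omega)]
    omega
  have h6 : 2 ^ (n + 1) ∣ (n + 1) * (n - 1) :=
    (padicValNat_dvd_iff_le (mul_ne_zero (by omega) (by omega))).2 h5
  have h7 := Nat.le_of_dvd (Nat.mul_pos (by omega) (by omega)) h6
  have h8 := sq_lt_two_pow hn
  obtain ⟨k, rfl⟩ : ∃ k, n = k + 1 := ⟨n - 1, by omega⟩
  rw [Nat.add_sub_cancel] at h7
  nlinarith

theorem odd_case {n K : ℕ} {T : ℤ} (hn : 3 ≤ n) (hno : Odd n) (hK : 0 < K) (hT0 : T ≠ 0)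
    (hT : (2 : ℤ) ^ n ∣ T) (hU : U T n K = 1 ∨ U T n K = -1) : False := by
  obtain ⟨s, l, hl, hsl⟩ := Nat.exists_eq_pow_mul_and_not_dvd hK.ne' 2 (by norm_num)
  have hn0 : (n : ℤ) ≠ 0 := by exact_mod_cast (by omega : n ≠ 0)
  obtain ⟨c, hc⟩ := U_mod_T (K := K) (s := s) (e := n) hT0 hn0 (by omega) ⟨l, hsl⟩
    (by push_cast; exact hT)
  push_cast at hc
  have hU2 : U T n K ^ 2 = 1 := by
    rcases hU with h | h <;> rw [h] <;> norm_num
  have h1 : (2 : ℤ) ^ (s + n + 1) ∣ (n : ℤ) ^ (2 * K) - 1 := by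
    obtain ⟨r, hr⟩ : ∃ r, s + n = r + 1 := ⟨s + n - 1, by omega⟩
    refine ⟨-(U T n K * c) + 2 ^ r * c ^ 2, ?_⟩
    have h2 : (n : ℤ) ^ (2 * K) = ((-(n : ℤ)) ^ K) ^ 2 := by
      rw [← pow_mul, mul_comm K 2, pow_mul, pow_mul, neg_sq]
    have h3 : (-(n : ℤ)) ^ K = U T n K - 2 ^ (s + n) * c := by linarith
    rw [h2, h3, hr, pow_succ]
    linear_combination hU2
  have h2 : 2 ^ (s + n + 1) ∣ n ^ (2 * K) - 1 := by
    have hge : 1 ≤ n ^ (2 * K) := Nat.one_le_pow _ _ (by omega)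
    have h3 : (((2 ^ (s + n + 1) : ℕ)) : ℤ) ∣ ((n ^ (2 * K) - 1 : ℕ) : ℤ) := by
      rw [Nat.cast_sub hge]
      push_cast
      exact h1
    exact_mod_cast h3
  exact lte_two hn hno hsl hl h2

/-- `W` is odd if `T - n` is odd -/
theorem W_odd {T n : ℤ} (h : Odd (T - n)) (j : ℕ) : Odd (W T n j) := by
  induction j with
  | zero => rw [W_zero]; exact odd_one
  | succ j ih =>
    rw [W_succ]
    refine Odd.sub_even (h.mul ih) ?_
    rw [mul_assoc]
    exact even_two_mul _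

end Pool.Agent.Lib_MP_6050fa_q
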