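import Pool.Agent.Lib_MP_6050fa.Order
import Pool.Agent.Lib_MP_6050fa.Count
import Pool.Agent.Lib_MP_6050fa_q.Odd
import Pool.Agent.Lib_MP_6050fa_q.EvenC

/-!
MP_6050fa_nt.  The reduction of `A B ^ 2 + n = y ^ m` to `U = ± 1`, if `I ^ (2 m / q)` is principal.
-/

set_option autoImplicit false

namespace Pool.Agent.Lib_MP_6050fa_q

open Pool.Agent.Lib_MP_6050fa Zsqrtd

theorem pow_mul_w {N : ℕ} {A a b n : ℤ} (hN : (N : ℤ) = n * A) (j : ℕ) :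
    (⟨A * a ^ 2 - n * b ^ 2, 2 * a * b⟩ : ℤ√(-(N : ℤ))) ^ j * ⟨A * a, b⟩ =
      ⟨A * a * W (A * a ^ 2) (n * b ^ 2) j, b * U (A * a ^ 2) (n * b ^ 2) j⟩ := by
  induction j with
  | zero =>
    rw [pow_zero, one_mul, W_zero, U_zero, mul_one, mul_one]
  | succ j ih =>
    rw [pow_succ', mul_assoc, ih, W_succ, U_succ]
    ext
    · rw [re_mul, hN]
      ring
    · rw [im_mul]
      ring

theorem ideal_eq {N m y : ℕ} {A B n : ℤ} (hm : 0 < m) (hN : (N : ℤ) = n * A)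
    (h : (y : ℤ) ^ m = A * B ^ 2 + n) (hc1 : IsCoprime A ((y : ℤ) ^ m))
    (hc2 : IsCoprime (y : ℤ) (2 * (A * B))) :
    (J N y (A * B)) ^ m = J N ((y ^ m : ℕ) : ℤ) (A * B) ∧
      (J N y (A * B)) ^ (2 * m) =
        Ideal.span {(⟨2 * B * (A * B) - (y : ℤ) ^ m, 2 * B⟩ : ℤ√(-(N : ℤ)))} := by
  have h0 : A * (y : ℤ) ^ m = (A * B) ^ 2 + N := by rw [h, hN]; ring
  have hdvd : (y : ℤ) ^ m ∣ (A * B) ^ 2 + N := by rw [← h0]; exact dvd_mul_left _ _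
  obtain ⟨i, rfl⟩ : ∃ i, m = i + 1 := ⟨m - 1, by omega⟩
  have h1 := J_pow (n := N) hdvd hc2 i le_rfl
  refine ⟨h1.symm, ?_⟩
  rw [mul_comm 2, pow_mul, ← h1, ← J_sq (n := N) h0 hc1]
  push_cast
  rfl

theorem red_core {N m y r K : ℕ} {A B n : ℤ} (hN : (N : ℤ) = n * A) (hN2 : 2 ≤ N)
    (hA : Squarefree A) (hr : 0 < r) (hm : m = (2 * K + 1) * r)
    (h : (y : ℤ) ^ m = A * B ^ 2 + n) (hc1 : IsCoprime A ((y : ℤ) ^ m))
    (hc2 : IsCoprime (y : ℤ) (2 * (A * B))) (hy : y ≠ 0) {γ : ℤ√(-(N : ℤ))}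
    (hγ : (J N y (A * B)) ^ (2 * r) = Ideal.span {γ}) :
    ∃ a : ℤ, (U (A * a ^ 2) n K = 1 ∨ U (A * a ^ 2) n K = -1) ∧
      B ^ 2 = a ^ 2 * W (A * a ^ 2) n K ^ 2 := by
  have hN0 : 0 < N := by omega
  have := nzd hN0
  have := dom hN0
  have hA0 : A ≠ 0 := hA.ne_zero
  have hm0 : 0 < m := by rw [hm]; positivity
  obtain ⟨h1, h2⟩ := ideal_eq hm0 hN h hc1 hc2
  set I := J N y (A * B) with hI
  set ζ : ℤ√(-(N : ℤ)) := ⟨2 * B * (A * B) - (y : ℤ) ^ m, 2 * B⟩ with hζ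
  set z : ℤ√(-(N : ℤ)) := ⟨A * B, 1⟩ with hz
  have hζ0 : ζ ≠ 0 := by
    intro h0
    have h3 := congrArg Zsqrtd.re h0
    have h4 := congrArg Zsqrtd.im h0
    simp only [hζ, re_zero, im_zero] at h3 h4
    have h5 : B = 0 := by omega
    rw [h5] at h3
    have h6 : (y : ℤ) ^ m = 0 := by linarith
    have h7 : (y : ℤ) = 0 := pow_eq_zero_iff hm0.ne' |>.1 h6
    exact hy (by exact_mod_cast h7)
  have hzz : z * z = (A : ℤ√(-(N : ℤ))) * ζ := by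
    rw [hζ, hz, intCast_val]
    ext
    · rw [re_mul, re_mul, hN, h]
      ring
    · rw [im_mul, im_mul]
      ring
  -- `ζ = ± γ ^ q`
  have h3 : Ideal.span {γ ^ (2 * K + 1)} = Ideal.span {ζ} := by
    rw [← Ideal.span_singleton_pow, ← hγ, ← pow_mul, ← h2, hm]
    congr 1
    ring
  have hγ0 : γ ≠ 0 := by
    rintro rfl
    rw [zero_pow (by omega)] at h3
    exact hζ0 (Ideal.span_singleton_eq_bot.1 (by rw [← h3]; simp))
  obtain ⟨σ, hσ, hσζ⟩ : ∃ σ : ℤ√(-(N : ℤ)), (σ = 1 ∨ σ = -1) ∧ ζ = σ * γ ^ (2 * K + 1) := by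
    obtain ⟨u, hu⟩ := Ideal.span_singleton_eq_span_singleton.1 h3
    refine ⟨u, unit_eq hN2 u.isUnit, ?_⟩
    rw [← hu, mul_comm]
  -- `z = γ ^ K w`
  have hzI : z ∈ Ideal.span {γ ^ K} := by
    have h4 : z ∈ I ^ m := by
      rw [h1]
      exact Ideal.subset_span (Set.mem_insert_of_mem _ rfl)
    have h5 : I ^ m ≤ I ^ (2 * r * K) := Ideal.pow_le_pow_right (by rw [hm]; nlinarith)
    rw [← Ideal.span_singleton_pow, ← hγ, ← pow_mul]
    exact h5 h4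
  obtain ⟨w, hw⟩ := Ideal.mem_span_singleton.1 hzI
  have hww : w * w = (A : ℤ√(-(N : ℤ))) * (σ * γ) := by
    have h4 : γ ^ (2 * K) * (w * w) = γ ^ (2 * K) * ((A : ℤ√(-(N : ℤ))) * (σ * γ)) := by
      calc γ ^ (2 * K) * (w * w) = (γ ^ K * w) * (γ ^ K * w) := by ring
        _ = z * z := by rw [← hw]
        _ = (A : ℤ√(-(N : ℤ))) * (σ * γ ^ (2 * K + 1)) := by rw [hzz, hσζ]
        _ = _ := by ring
    exact mul_left_cancel₀ (pow_ne_zero _ hγ0) h4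
  have hre := congrArg Zsqrtd.re hww
  have him := congrArg Zsqrtd.im hww
  rw [re_mul, re_smul] at hre
  rw [im_mul, im_smul] at him
  have h4 : A ∣ w.re ^ 2 := ⟨(σ * γ).re + n * w.im ^ 2, by
    linear_combination hre + w.im ^ 2 * hN⟩
  obtain ⟨a, ha⟩ := (hA.dvd_pow_iff_dvd two_ne_zero).1 h4
  obtain ⟨b, hb⟩ : ∃ b, w.im = b := ⟨_, rfl⟩
  rw [hb] at hre him
  have h5 : (σ * γ).re = A * a ^ 2 - n * b ^ 2 := by
    apply mul_left_cancel₀ hA0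
    linear_combination -hre + (w.re + A * a) * ha - b ^ 2 * hN
  have h6 : (σ * γ).im = 2 * a * b := by
    apply mul_left_cancel₀ hA0
    linear_combination -him + 2 * b * ha
  have h7 : σ * γ = ⟨A * a ^ 2 - n * b ^ 2, 2 * a * b⟩ := by
    ext
    · exact h5
    · exact h6
  have h8 : w = ⟨A * a, b⟩ := by
    ext
    · exact ha
    · exact hb
  have h9 : σ ^ K * z = ⟨A * a * W (A * a ^ 2) (n * b ^ 2) K, b * U (A * a ^ 2) (n * b ^ 2) K⟩ := by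
    rw [← pow_mul_w hN, ← h7, ← h8, mul_pow, hw]
    ring
  have hσK : σ ^ K = 1 ∨ σ ^ K = -1 := by
    rcases hσ with h | h
    · left; rw [h, one_pow]
    · rw [h]; exact neg_one_pow_eq_or _ K
  obtain ⟨τ, hτ, hτz⟩ : ∃ τ : ℤ, (τ = 1 ∨ τ = -1) ∧ σ ^ K * z = ⟨τ * (A * B), τ⟩ := by
    rcases hσK with h | h
    · refine ⟨1, Or.inl rfl, ?_⟩
      rw [h, one_mul, one_mul]
    · refine ⟨-1, Or.inr rfl, ?_⟩
      rw [h, hz]
      ext <;> simp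
  rw [hτz] at h9
  have hre' := congrArg Zsqrtd.re h9
  have him' := congrArg Zsqrtd.im h9
  simp only at hre' him'
  have hτ2 : τ ^ 2 = 1 := by
    rcases hτ with h | h <;> rw [h] <;> norm_num
  have hbU : IsUnit (b * U (A * a ^ 2) (n * b ^ 2) K) := by
    rw [← him']
    rcases hτ with h | h <;> rw [h]
    · exact isUnit_one
    · exact isUnit_one.neg
  obtain ⟨hb1, hU1⟩ := IsUnit.mul_iff.1 hbU
  have hb2 : b ^ 2 = 1 := by
    rcases Int.isUnit_iff.1 hb1 with h | h <;> rw [h] <;> norm_num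
  rw [hb2, mul_one] at hU1 hre'
  refine ⟨a, Int.isUnit_iff.1 hU1, ?_⟩
  have h10 : τ * B = a * W (A * a ^ 2) n K := by
    apply mul_left_cancel₀ hA0
    linear_combination hre'
  calc B ^ 2 = (τ * B) ^ 2 := by rw [mul_pow, hτ2, one_mul]
    _ = _ := by rw [h10, mul_pow]

end Pool.Agent.Lib_MP_6050fa_q
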