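import Pool.Agent.Lib_MP_6050fa.Small
import Pool.Agent.Lib_MP_6050fa_q.Red
import Pool.Agent.Lib_MP_6050fa_q.Prim

/-!
MP_6050fa_nt.  The odd part of `m` divides the order of the class of `I`.
-/

set_option autoImplicit false

namespace Pool.Agent.Lib_MP_6050fa_q

open Pool.Agent.Lib_MP_6050fa Zsqrtd

/-- common prime factors of `x` and `n` -/
theorem common' {x n y m p : ℕ} (hn : 2 ≤ n) (hy : 2 ≤ y) (h : x ^ n + n = y ^ m) (hp : p.Prime)
    (hpx : p ∣ x) (hpn : p ∣ n) :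
    ∃ e n' : ℕ, 1 ≤ e ∧ n = p ^ (m * e) * n' ∧ ¬ p ∣ n' := by
  have hpxn : p ^ n ∣ x ^ n := pow_dvd_pow_of_dvd hpx n
  have hpy : p ∣ y := by
    have h1 : p ∣ x ^ n := dvd_pow hpx (by omega)
    have h2 : p ∣ y ^ m := by
      rw [← h]
      exact dvd_add h1 hpn
    exact hp.dvd_of_dvd_pow h2
  obtain ⟨e, y', hy', rfl⟩ := Nat.exists_eq_pow_mul_and_not_dvd (by omega : y ≠ 0) p hp.ne_one
  have he : 1 ≤ e := by
    by_contra h1
    have : e = 0 := by omega
    subst this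
    rw [pow_zero, one_mul] at hpy
    exact hy' hpy
  have hlt : m * e < n := by
    by_contra h1
    push Not at h1
    have h2 : p ^ n ∣ (p ^ e * y') ^ m := by
      rw [mul_pow, ← pow_mul, mul_comm e m]
      exact dvd_mul_of_dvd_left (pow_dvd_pow p h1) _
    have h3 : p ^ n ∣ n := by
      rw [← h] at h2
      exact (Nat.dvd_add_right hpxn).1 h2
    have h4 := Nat.le_of_dvd (by omega) h3
    have h5 : n < p ^ n := Nat.lt_pow_self hp.one_lt
    omega
  obtain ⟨X, hX⟩ := hpxn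
  have hX' : x ^ n = p ^ (m * e) * (p * (p ^ (n - m * e - 1) * X)) := by
    rw [hX]
    have : p ^ n = p ^ (m * e) * (p * p ^ (n - m * e - 1)) := by
      rw [← pow_succ', ← pow_add]
      congr 1
      omega
    rw [this]
    ring
  have hY : (p ^ e * y') ^ m = p ^ (m * e) * y' ^ m := by
    rw [mul_pow, ← pow_mul, mul_comm e m]
  have h6 : p ^ (m * e) ∣ n := by
    have h7 : p ^ (m * e) ∣ x ^ n + n := by
      rw [h, hY]
      exact dvd_mul_right _ _
    have h8 : p ^ (m * e) ∣ x ^ n := by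
      rw [hX']
      exact dvd_mul_right _ _
    exact (Nat.dvd_add_right h8).1 h7
  obtain ⟨n', hn'⟩ := h6
  have h8 : p * (p ^ (n - m * e - 1) * X) + n' = y' ^ m := by
    have h9 : p ^ (m * e) * (p * (p ^ (n - m * e - 1) * X) + n') = p ^ (m * e) * y' ^ m := by
      rw [mul_add, ← hX', ← hn', h, hY]
    exact Nat.eq_of_mul_eq_mul_left (pow_pos hp.pos _) h9
  refine ⟨e, n', he, hn', ?_⟩
  intro h10
  have h11 : p ∣ y' ^ m := by
    rw [← h8]
    exact dvd_add (dvd_mul_right _ _) h10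
  exact hy' (hp.dvd_of_dvd_pow h11)

section core

variable {x n y m A B : ℕ}

/-- the coprimality conditions -/
theorem conds (hx : 2 ≤ x) (hn : 3 ≤ n) (hyo : Odd y) (hm : m ≠ 0) (h : x ^ n + n = y ^ m)
    (hcop : Nat.Coprime x n) (hAB : x ^ n = A * B ^ 2) :
    (y : ℤ) ^ m = (A : ℤ) * (B : ℤ) ^ 2 + n ∧ IsCoprime (A : ℤ) ((y : ℤ) ^ m) ∧
      IsCoprime (y : ℤ) (2 * ((A : ℤ) * B)) := by
  have hxy : ∀ p : ℕ, p.Prime → p ∣ x → ¬ p ∣ y := by
    intro p hp hpx hpy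
    have h1 : p ∣ y ^ m := dvd_pow hpy hm
    rw [← h] at h1
    have h2 : p ∣ n := (Nat.dvd_add_right (dvd_pow hpx (by omega))).1 h1
    have h3 := Nat.dvd_gcd hpx h2
    rw [hcop] at h3
    exact hp.one_lt.ne' (Nat.dvd_one.1 h3)
  refine ⟨?_, ?_, ?_⟩
  · rw [hAB] at h
    exact_mod_cast h.symm
  · apply IsCoprime.pow_right
    apply Nat.isCoprime_iff_coprime.2
    by_contra hc
    obtain ⟨p, hp, hpA, hpy⟩ := Nat.Prime.not_coprime_iff_dvd.1 hc
    refine hxy p hp ?_ hpy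
    apply hp.dvd_of_dvd_pow (n := n)
    rw [hAB]
    exact Dvd.dvd.mul_right hpA _
  · have h1 : Nat.Coprime y (2 * (A * B)) := by
      by_contra hc
      obtain ⟨p, hp, hpy, hp2⟩ := Nat.Prime.not_coprime_iff_dvd.1 hc
      rcases (Nat.Prime.dvd_mul hp).1 hp2 with h2 | h2
      · have : p = 2 := (Nat.prime_dvd_prime_iff_eq hp Nat.prime_two).1 h2
        subst this
        obtain ⟨w, hw⟩ := hyo
        omega
      · refine hxy p hp ?_ hpy
        apply hp.dvd_of_dvd_pow (n := n)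
        rw [hAB, pow_two, ← mul_assoc]
        exact Dvd.dvd.mul_right h2 _
    have := Nat.isCoprime_iff_coprime.2 h1
    push_cast at this
    exact this

theorem no_q {r K : ℕ} (hx : 2 ≤ x) (hn : 3 ≤ n) (hyo : Odd y) (hy : 2 ≤ y) (hm2 : 2 ≤ m)
    (h : x ^ n + n = y ^ m) (hcop : Nat.Coprime x n) (hAB : x ^ n = A * B ^ 2)
    (hA : Squarefree A) (hr : 0 < r) (hK : 0 < K) (hm : m = (2 * K + 1) * r)
    (hq : (2 * K + 1).Prime) {γ : ℤ√(-((n * A : ℕ) : ℤ))}
    (hγ : (J (n * A) y (A * B)) ^ (2 * r) = Ideal.span {γ}) : False := by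
  obtain ⟨h1, h2, h3⟩ := conds hx hn hyo (by omega) h hcop hAB
  have hA0 : 0 < A := Nat.pos_of_ne_zero hA.ne_zero
  have hN2 : 2 ≤ n * A := by
    calc 2 ≤ n := by omega
      _ ≤ n * A := Nat.le_mul_of_pos_right n hA0
  obtain ⟨a, hU, hB⟩ := red_core (N := n * A) (n := (n : ℤ)) (A := (A : ℤ)) (B := (B : ℤ))
    (by push_cast; ring) hN2 (Int.squarefree_natCast.2 hA) hr hm h1 h2 h3 (by omega) hγ
  set T : ℤ := A * a ^ 2 with hT
  have hxn : (x : ℤ) ^ n = T * W T n K ^ 2 := by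
    have h4 : (x : ℤ) ^ n = A * (B : ℤ) ^ 2 := by exact_mod_cast hAB
    rw [h4, hB, hT]
    ring
  have hxpos : (0 : ℤ) < (x : ℤ) ^ n := by positivity
  have hTpos : 0 < T := by
    have h4 : 0 ≤ T := by rw [hT]; positivity
    rcases h4.lt_or_eq with h5 | h5
    · exact h5
    · rw [← h5, zero_mul] at hxn
      rw [hxn] at hxpos
      exact absurd hxpos (lt_irrefl _)
  rcases Nat.even_or_odd n with hne | hno
  · have hn4 : n ≠ 4 := by
      rintro rfl
      exact sophie_germain (r := 1) hx one_pos hy hm2 (by simpa using h)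
    obtain ⟨k, hk⟩ := hne
    exact even_case (by omega) ⟨k, hk⟩ hcop hK hq hTpos hx hxn hU
  · -- `x` is even and `T` is even
    have hxe : Even x := by
      rw [← Nat.not_odd_iff_even]
      intro hxo
      have h4 : Even (x ^ n + n) := hxo.pow.add_odd hno
      rw [h, ← Nat.not_odd_iff_even] at h4
      exact h4 hyo.pow
    have hU2 : U T n K ^ 2 = 1 := by
      rcases hU with h | h <;> rw [h] <;> norm_num
    have hnorm := norm_eq T n K
    rw [← hxn, hU2, mul_one] at hnorm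
    have hyZ : Odd ((y : ℤ) ^ m) := by
      have : Odd (y : ℤ) := by exact_mod_cast hyo
      exact this.pow
    have h4 : (x : ℤ) ^ n + n = (y : ℤ) ^ m := by exact_mod_cast h
    rw [h4] at hnorm
    rw [hnorm] at hyZ
    have hTn : Odd (T + n) := by
      rcases Int.even_or_odd (T + n) with h5 | h5
      · exfalso
        have h6 : Even ((T + n) ^ (2 * K + 1)) := h5.pow_of_ne_zero (by omega)
        rw [← Int.not_odd_iff_even] at h6
        exact h6 hyZ
      · exact h5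
    have hTn' : Odd (T - n) := by
      have h5 : T - n = (T + n) - 2 * n := by ring
      rw [h5]
      exact hTn.sub_even (even_two_mul _)
    have hWo := W_odd hTn' K
    have h5 : (2 : ℤ) ^ n ∣ T * W T n K ^ 2 := by
      rw [← hxn]
      apply pow_dvd_pow_of_dvd
      exact_mod_cast hxe.two_dvd
    have h6 : IsCoprime ((2 : ℤ) ^ n) (W T n K ^ 2) := by
      apply IsCoprime.pow
      rw [Int.isCoprime_iff_gcd_eq_one, ← Int.isCoprime_iff_gcd_eq_one]
      obtain ⟨k, hk⟩ := hWo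
      exact ⟨-k, 1, by rw [hk]; ring⟩
    exact odd_case hn hno hK hTpos.ne' (h6.dvd_of_dvd_mul_right h5) hU

/-- **The odd part of `m` divides every `t` for which `I ^ t` is principal.** -/
theorem order_dvd {k m1 t : ℕ} (hx : 2 ≤ x) (hn : 3 ≤ n) (hyo : Odd y) (hy : 2 ≤ y) (hm2 : 2 ≤ m)
    (h : x ^ n + n = y ^ m) (hcop : Nat.Coprime x n) (hAB : x ^ n = A * B ^ 2)
    (hA : Squarefree A) (hk : m = 2 ^ k * m1) (hm1 : Odd m1) (ht : 0 < t)
    (hprin : ∃ γ, (J (n * A) y (A * B)) ^ t = Ideal.span {γ}) : m1 ∣ t := by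
  have hA0 : 0 < A := Nat.pos_of_ne_zero hA.ne_zero
  have hN0 : 0 < n * A := Nat.mul_pos (by omega) hA0
  have := nzd hN0
  have := dom hN0
  obtain ⟨h1, h2, h3⟩ := conds hx hn hyo (by omega) h hcop hAB
  obtain ⟨-, hI⟩ := ideal_eq (N := n * A) (n := (n : ℤ)) (m := m) (y := y) (A := (A : ℤ))
    (B := (B : ℤ)) (by omega) (by push_cast; ring) h1 h2 h3
  set I := J (n * A) y (A * B) with hIdef
  have hI0 : I ≠ ⊥ := by
    intro h0
    have h4 : ((y : ℤ) : ℤ√(-((n * A : ℕ) : ℤ))) ∈ I := Ideal.subset_span (Set.mem_insert _ _)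
    rw [h0, Ideal.mem_bot] at h4
    have h5 := congrArg Zsqrtd.re h4
    simp only [re_intCast, re_zero] at h5
    omega
  have hex : ∃ t, 0 < t ∧ ∃ w, I ^ t = Ideal.span {w} := ⟨t, ht, hprin⟩
  classical
  set g := Nat.find hex with hg
  obtain ⟨hg0, γ, hγ⟩ := Nat.find_spec hex
  rw [← hg] at hg0 hγ
  have hγ0 : γ ≠ 0 := by
    intro h0
    have h4 : I ^ g = 0 := by rw [hγ, h0]; simp
    exact hI0 (pow_eq_zero_iff hg0.ne' |>.1 h4)
  have hmul : ∀ s, (∃ w, I ^ s = Ideal.span {w}) → g ∣ s := by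
    rintro s ⟨w, hw⟩
    have hdecomp : Ideal.span {γ ^ (s / g)} * I ^ (s % g) = Ideal.span {w} := by
      rw [← Ideal.span_singleton_pow, ← hγ, ← pow_mul, ← pow_add, Nat.div_add_mod, hw]
    by_contra hr
    have hr2 : s % g ≠ 0 := fun h => hr (Nat.dvd_of_mod_eq_zero h)
    have h1 := princ hN0 (pow_ne_zero _ hγ0) hdecomp
    have h2 := Nat.find_min' hex ⟨Nat.pos_of_ne_zero hr2, h1⟩
    have h3 := Nat.mod_lt s hg0
    omega
  refine dvd_trans ?_ (hmul t hprin)
  obtain ⟨l, hl⟩ := hmul (2 * m) ⟨_, hI⟩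
  by_contra hcon
  have hq : ∃ q, q.Prime ∧ q ∣ l ∧ q ≠ 2 := by
    by_contra hno
    push Not at hno
    have hl0 : l ≠ 0 := by
      rintro rfl
      omega
    have h2 : l = 2 ^ l.primeFactorsList.length :=
      Nat.eq_prime_pow_of_unique_prime_dvd hl0 (fun {d} hd hd2 => hno d hd hd2)
    have h3 : m1 ∣ g * l := by
      rw [← hl, hk]
      exact ⟨2 * 2 ^ k, by ring⟩
    have h4 : Nat.Coprime m1 l := by
      rw [h2]
      exact Nat.Coprime.pow_right _ (Nat.coprime_two_right.2 hm1)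
    exact hcon (h4.dvd_of_dvd_mul_right h3)
  obtain ⟨q, hqp, ⟨l', hl'⟩, hq2⟩ := hq
  obtain ⟨K, hK⟩ := hqp.odd_of_ne_two hq2
  have hqm : q ∣ m := by
    have h4 : q ∣ 2 * m := by
      rw [hl, hl']
      exact ⟨g * l', by ring⟩
    rcases (Nat.Prime.dvd_mul hqp).1 h4 with h5 | h5
    · exact absurd ((Nat.prime_dvd_prime_iff_eq hqp Nat.prime_two).1 h5) hq2
    · exact h5
  obtain ⟨r, hr⟩ := hqm
  have h5 : 2 * r = g * l' := by
    apply Nat.eq_of_mul_eq_mul_left hqp.pos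
    calc q * (2 * r) = 2 * m := by rw [hr]; ring
      _ = q * (g * l') := by rw [hl, hl']; ring
  have hr0 : 0 < r := by
    rcases Nat.eq_zero_or_pos r with h6 | h6
    · rw [h6, Nat.mul_zero] at hr
      omega
    · exact h6
  have hK0 : 0 < K := by
    rcases Nat.eq_zero_or_pos K with h6 | h6
    · rw [h6] at hK
      have := hqp.two_le
      omega
    · exact h6
  refine no_q (γ := γ ^ l') hx hn hyo hy hm2 h hcop hAB hA hr0 hK0 (hK ▸ hr) (hK ▸ hqp) ?_
  rw [← hIdef, h5, pow_mul, hγ, Ideal.span_singleton_pow]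

/-- the powers of `I` are equivalent to primitive reduced ideals -/
theorem red_pow (hx : 2 ≤ x) (hn : 3 ≤ n) (hyo : Odd y) (hy : 2 ≤ y) (hm2 : 2 ≤ m)
    (h : x ^ n + n = y ^ m) (hcop : Nat.Coprime x n) (hAB : x ^ n = A * B ^ 2)
    (hA : Squarefree A) {j : ℕ} (hj1 : 1 ≤ j) (hjm : j ≤ m) :
    ∃ p : ℕ × ℕ, p ∈ P (n * A) ∧
      ∃ α β : ℤ√(-((n * A : ℕ) : ℤ)), α ≠ 0 ∧ β ≠ 0 ∧
        Ideal.span {α} * (J (n * A) y (A * B)) ^ j = Ideal.span {β} * J (n * A) p.1 p.2 := by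
  have hA0 : 0 < A := Nat.pos_of_ne_zero hA.ne_zero
  have hN0 : 0 < n * A := Nat.mul_pos (by omega) hA0
  have := nzd hN0
  have := dom hN0
  obtain ⟨h1, h2, h3⟩ := conds hx hn hyo (by omega) h hcop hAB
  obtain ⟨-, hI⟩ := ideal_eq (N := n * A) (n := (n : ℤ)) (m := m) (y := y) (A := (A : ℤ))
    (B := (B : ℤ)) (by omega) (by push_cast; ring) h1 h2 h3
  set ζ : ℤ√(-((n * A : ℕ) : ℤ)) := ⟨2 * B * (A * B) - (y : ℤ) ^ m, 2 * B⟩ with hζ
  have hζ0 : ζ ≠ 0 := by
    intro h0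
    have h3 := congrArg Zsqrtd.re h0
    have h4 := congrArg Zsqrtd.im h0
    simp only [hζ, re_zero, im_zero] at h3 h4
    have h5 : (B : ℤ) = 0 := by omega
    rw [h5] at h3
    have h6 : (y : ℤ) ^ m = 0 := by linarith
    have h7 : (y : ℤ) = 0 := pow_eq_zero_iff (by omega) |>.1 h6
    have h8 : y = 0 := by exact_mod_cast h7
    omega
  have hdvd : (y : ℤ) ^ m ∣ ((A : ℤ) * B) ^ 2 + ((n * A : ℕ) : ℤ) := by
    refine ⟨A, ?_⟩
    rw [h1]
    push_cast
    ring
  set I := J (n * A) y (A * B) with hIdef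
  obtain ⟨c, b, hc0, hbc, hcb, hc2, α, β, hα, hβ, h5⟩ := red' hN0 (y ^ j) (by positivity)
    ((A : ℤ) * B) (by
      refine dvd_trans ?_ hdvd
      push_cast
      exact pow_dvd_pow _ hjm)
  have h6 : J (n * A) ((y ^ j : ℕ) : ℤ) (A * B) = I ^ j := by
    obtain ⟨i, rfl⟩ : ∃ i, j = i + 1 := ⟨j - 1, by omega⟩
    exact J_pow hdvd h3 i hjm
  rw [h6] at h5
  refine ⟨(c, b), mem_P hbc hcb hc2 ?_, α, β, hα, hβ, h5⟩
  refine prim hN0 hcb (K := Ideal.span {β} * I ^ (2 * m - j)) (δ := α * ζ) (mul_ne_zero hα hζ0) ?_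
  calc J (n * A) c b * (Ideal.span {β} * I ^ (2 * m - j))
      = (Ideal.span {β} * J (n * A) c b) * I ^ (2 * m - j) := by ring
    _ = Ideal.span {α} * (I ^ j * I ^ (2 * m - j)) := by rw [← h5]; ring
    _ = Ideal.span {α * ζ} := by
      rw [← pow_add, show j + (2 * m - j) = 2 * m by omega, hI,
        Ideal.span_singleton_mul_span_singleton]

/-- **The odd part of `m` is at most the number of primitive reduced data.** -/
theorem le_card {k m1 : ℕ} (hx : 2 ≤ x) (hn : 3 ≤ n) (hyo : Odd y) (hy : 2 ≤ y) (hm2 : 2 ≤ m)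
    (h : x ^ n + n = y ^ m) (hcop : Nat.Coprime x n) (hAB : x ^ n = A * B ^ 2)
    (hA : Squarefree A) (hk : m = 2 ^ k * m1) (hm1 : Odd m1) : m1 ≤ (P (n * A)).card := by
  by_contra hM
  push Not at hM
  have hA0 : 0 < A := Nat.pos_of_ne_zero hA.ne_zero
  have hN0 : 0 < n * A := Nat.mul_pos (by omega) hA0
  have := nzd hN0
  have := dom hN0
  obtain ⟨h1, h2, h3⟩ := conds hx hn hyo (by omega) h hcop hAB
  obtain ⟨-, hI⟩ := ideal_eq (N := n * A) (n := (n : ℤ)) (m := m) (y := y) (A := (A : ℤ))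
    (B := (B : ℤ)) (by omega) (by push_cast; ring) h1 h2 h3
  have hord : ∀ t, 0 < t → (∃ γ, (J (n * A) y (A * B)) ^ t = Ideal.span {γ}) → m1 ∣ t :=
    fun t ht hp => order_dvd hx hn hyo hy hm2 h hcop hAB hA hk hm1 ht hp
  have hm1m : m1 ≤ m := by
    rw [hk]
    exact Nat.le_mul_of_pos_left _ (by positivity)
  set ζ : ℤ√(-((n * A : ℕ) : ℤ)) := ⟨2 * B * (A * B) - (y : ℤ) ^ m, 2 * B⟩ with hζ
  have hred : ∀ j ∈ Finset.Icc 1 m1, ∃ p : ℕ × ℕ, p ∈ P (n * A) ∧
      ∃ α β : ℤ√(-((n * A : ℕ) : ℤ)), α ≠ 0 ∧ β ≠ 0 ∧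
        Ideal.span {α} * (J (n * A) y (A * B)) ^ j = Ideal.span {β} * J (n * A) p.1 p.2 := by
    intro j hj
    rw [Finset.mem_Icc] at hj
    exact red_pow hx hn hyo hy hm2 h hcop hAB hA hj.1 (hj.2.trans hm1m)
  set I := J (n * A) y (A * B) with hIdef
  choose! f hf using hred
  obtain ⟨a, ha, b, hb, hab, hfab⟩ := Finset.exists_ne_map_eq_of_card_lt_of_maps_to
    (s := Finset.Icc 1 m1) (t := P (n * A)) (f := f) (by simpa using hM)
    (fun j hj => (hf j hj).1)
  have key : ∀ a ∈ Finset.Icc 1 m1, ∀ b ∈ Finset.Icc 1 m1, a < b → f a = f b → False := by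
    intro a ha b hb hab hfab
    obtain ⟨_, α, β, hα, hβ, h1⟩ := hf a ha
    obtain ⟨_, α', β', hα', hβ', h2⟩ := hf b hb
    rw [Finset.mem_Icc] at ha hb
    rw [hfab] at h1
    have h3 : ∃ w, I ^ (a + (2 * m - b)) = Ideal.span {w} := by
      refine princ (α := α * β') (ρ := β * α' * ζ) hN0 (mul_ne_zero hα hβ') ?_
      calc Ideal.span {α * β'} * I ^ (a + (2 * m - b))
          = Ideal.span {β'} * (Ideal.span {α} * I ^ a) * I ^ (2 * m - b) := by
            rw [← Ideal.span_singleton_mul_span_singleton, pow_add]; ring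
        _ = Ideal.span {β} * (Ideal.span {β'} * J (n * A) (f b).1 (f b).2) * I ^ (2 * m - b) := by
            rw [h1]; ring
        _ = Ideal.span {β} * (Ideal.span {α'} * (I ^ b * I ^ (2 * m - b))) := by
            rw [← h2]; ring
        _ = Ideal.span {β * α' * ζ} := by
            rw [← pow_add, show b + (2 * m - b) = 2 * m by omega, hI,
              Ideal.span_singleton_mul_span_singleton, Ideal.span_singleton_mul_span_singleton,
              mul_assoc]
    have h4 := hord _ (by omega) h3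
    have h5 : m1 ∣ b - a := by
      have h6 : m1 ∣ 2 * m := by rw [hk]; exact ⟨2 * 2 ^ k, by ring⟩
      have h7 : m1 ∣ 2 * m - (a + (2 * m - b)) := Nat.dvd_sub h6 h4
      rwa [show 2 * m - (a + (2 * m - b)) = b - a by omega] at h7
    have h6 := Nat.le_of_dvd (by omega) h5
    omega
  rcases lt_or_gt_of_ne hab with h1 | h1
  · exact key a ha b hb h1 hfab
  · exact key b hb a ha h1 hfab.symm

/-- If all primitive reduced forms are ambiguous, then `m` is a power of two. -/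
theorem amb_one {k m1 : ℕ} (hx : 2 ≤ x) (hn : 3 ≤ n) (hyo : Odd y) (hy : 2 ≤ y) (hm2 : 2 ≤ m)
    (h : x ^ n + n = y ^ m) (hcop : Nat.Coprime x n) (hAB : x ^ n = A * B ^ 2)
    (hA : Squarefree A) (hk : m = 2 ^ k * m1) (hm1 : Odd m1)
    (hamb : ∀ p ∈ P (n * A), Amb (n * A) p) : m1 = 1 := by
  have hA0 : 0 < A := Nat.pos_of_ne_zero hA.ne_zero
  have hN0 : 0 < n * A := Nat.mul_pos (by omega) hA0
  have := nzd hN0
  have := dom hN0
  obtain ⟨⟨c, b⟩, hP, α, β, hα, hβ, h1⟩ := red_pow (j := 1) hx hn hyo hy hm2 h hcop hAB hA le_rfl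
    (by omega)
  have ha := hamb _ hP
  unfold P at hP
  simp only [Finset.mem_filter, Finset.mem_product, Finset.mem_range] at hP
  obtain ⟨_, hbc, hc, _, hg⟩ := hP
  obtain ⟨δ, hδ⟩ := amb_sq (by omega) hbc hc hg ha
  rw [pow_one] at h1
  have h2 : ∃ w, (J (n * A) y (A * B)) ^ 2 = Ideal.span {w} := by
    refine princ (α := α ^ 2) (ρ := β ^ 2 * δ) hN0 (pow_ne_zero _ hα) ?_
    calc Ideal.span {α ^ 2} * (J (n * A) y (A * B)) ^ 2
        = (Ideal.span {α} * J (n * A) y (A * B)) ^ 2 := by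
          rw [← Ideal.span_singleton_pow, mul_pow]
      _ = Ideal.span {β} ^ 2 * (J (n * A) c b) ^ 2 := by rw [h1, mul_pow]
      _ = Ideal.span {β ^ 2 * δ} := by
          rw [hδ, Ideal.span_singleton_pow, Ideal.span_singleton_mul_span_singleton]
  have h3 := order_dvd hx hn hyo hy hm2 h hcop hAB hA hk hm1 two_pos h2
  rcases (Nat.dvd_prime Nat.prime_two).1 h3 with h4 | h4
  · exact h4
  · rw [h4] at hm1
    exact absurd hm1 (by decide)

end core

end Pool.Agent.Lib_MP_6050fa_q
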