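import Mathlib

/-!
MP_6050fa_nt.  The integers `W`, `U` with `(√T + √(-n)) ^ (2 k + 1) = √T W + √(-n) U`.
-/

set_option autoImplicit false

namespace Pool.Agent.Lib_MP_6050fa_q

open Finset

/-- the pair `(W, U)` with `(√T + √(-n)) ^ (2 j + 1) = √T W + √(-n) U` -/
def WU (T n : ℤ) : ℕ → ℤ × ℤ
  | 0 => (1, 1)
  | j + 1 => ((T - n) * (WU T n j).1 - 2 * n * (WU T n j).2,
      2 * T * (WU T n j).1 + (T - n) * (WU T n j).2)

/-- `W` -/
def W (T n : ℤ) (j : ℕ) : ℤ := (WU T n j).1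

/-- `U` -/
def U (T n : ℤ) (j : ℕ) : ℤ := (WU T n j).2

theorem W_zero (T n : ℤ) : W T n 0 = 1 := rfl

theorem U_zero (T n : ℤ) : U T n 0 = 1 := rfl

theorem W_succ (T n : ℤ) (j : ℕ) : W T n (j + 1) = (T - n) * W T n j - 2 * n * U T n j := rfl

theorem U_succ (T n : ℤ) (j : ℕ) : U T n (j + 1) = 2 * T * W T n j + (T - n) * U T n j := rfl

theorem norm_eq (T n : ℤ) (j : ℕ) : T * W T n j ^ 2 + n * U T n j ^ 2 = (T + n) ^ (2 * j + 1) := by
  induction j with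
  | zero => rw [W_zero, U_zero]; ring
  | succ j ih =>
    rw [W_succ, U_succ, show 2 * (j + 1) + 1 = (2 * j + 1) + 2 by ring, pow_add, ← ih]
    ring

theorem pow_eq {X Y : ℂ} {T n : ℤ} (hX : X ^ 2 = T) (hY : Y ^ 2 = -n) (j : ℕ) :
    (Y + X) ^ (2 * j + 1) = X * (W T n j : ℂ) + Y * (U T n j : ℂ) := by
  induction j with
  | zero => rw [W_zero, U_zero]; push_cast; ring
  | succ j ih =>
    have h1 : (Y + X) ^ 2 = (T : ℂ) - n + 2 * X * Y := by
      rw [← hX]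
      linear_combination hY
    rw [show 2 * (j + 1) + 1 = (2 * j + 1) + 2 by ring, pow_add, ih, h1, W_succ, U_succ]
    push_cast
    linear_combination (2 * Y * (W T n j : ℂ)) * hX + (2 * X * (U T n j : ℂ)) * hY

theorem sum_split {M : Type} [AddCommMonoid M] (f : ℕ → M) (j : ℕ) :
    ∑ m ∈ range (2 * j), f m = ∑ i ∈ range j, (f (2 * i) + f (2 * i + 1)) := by
  induction j with
  | zero => simp
  | succ j ih =>
    rw [show 2 * (j + 1) = 2 * j + 1 + 1 by ring, sum_range_succ, sum_range_succ, ih,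
      sum_range_succ, add_assoc]

/-- the binomial expansion of `U` -/
def Ub (T n : ℤ) (j : ℕ) : ℤ :=
  ∑ i ∈ range (j + 1), ((2 * j + 1).choose (2 * i + 1) : ℤ) * T ^ (j - i) * (-n) ^ i

/-- the binomial expansion of `W` -/
def Wb (T n : ℤ) (j : ℕ) : ℤ :=
  ∑ i ∈ range (j + 1), ((2 * j + 1).choose (2 * i) : ℤ) * T ^ (j - i) * (-n) ^ i

theorem pow_eq_b {X Y : ℂ} {T n : ℤ} (hX : X ^ 2 = T) (hY : Y ^ 2 = -n) (j : ℕ) :
    (Y + X) ^ (2 * j + 1) = X * (Wb T n j : ℂ) + Y * (Ub T n j : ℂ) := by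
  rw [add_pow, show 2 * j + 1 + 1 = 2 * (j + 1) by ring, sum_split]
  unfold Wb Ub
  push_cast
  rw [mul_sum, mul_sum, ← sum_add_distrib]
  refine sum_congr rfl fun i hi => ?_
  rw [mem_range] at hi
  have h1 : X ^ (2 * j + 1 - 2 * i) = X * (T : ℂ) ^ (j - i) := by
    rw [← hX, ← pow_mul, show 2 * j + 1 - 2 * i = 2 * (j - i) + 1 by omega, pow_succ]
    ring
  have h2 : X ^ (2 * j - 2 * i) = (T : ℂ) ^ (j - i) := by
    rw [← hX, ← pow_mul, show 2 * j - 2 * i = 2 * (j - i) by omega]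
  have h3 : Y ^ (2 * i) = (-(n : ℂ)) ^ i := by
    rw [pow_mul, hY]
  rw [h1, h2, pow_succ, h3]
  ring

theorem W_U_eq {T n : ℤ} (hT : T ≠ 0) (hn : n ≠ 0) (j : ℕ) :
    W T n j = Wb T n j ∧ U T n j = Ub T n j := by
  obtain ⟨X, hX⟩ := IsAlgClosed.exists_pow_nat_eq (T : ℂ) two_pos
  obtain ⟨Y, hY⟩ := IsAlgClosed.exists_pow_nat_eq (-(n : ℂ)) two_pos
  have hX0 : X ≠ 0 := by
    rintro rfl
    apply hT
    have : (T : ℂ) = 0 := by rw [← hX]; ring
    exact_mod_cast this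
  have hY0 : Y ≠ 0 := by
    rintro rfl
    apply hn
    have : (n : ℂ) = 0 := by
      have h : -(n : ℂ) = 0 := by rw [← hY]; ring
      exact neg_eq_zero.mp h
    exact_mod_cast this
  have hY' : (-Y) ^ 2 = -(n : ℂ) := by rw [neg_sq, hY]
  have e1 := (pow_eq hX hY j).symm.trans (pow_eq_b hX hY j)
  have e2 := (pow_eq hX hY' j).symm.trans (pow_eq_b hX hY' j)
  have e3 : X * ((W T n j : ℂ) - Wb T n j) = 0 := by linear_combination (e1 + e2) / 2
  have e4 : Y * ((U T n j : ℂ) - Ub T n j) = 0 := by linear_combination (e1 - e2) / 2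
  constructor
  · have := (mul_eq_zero.mp e3).resolve_left hX0
    exact_mod_cast sub_eq_zero.mp this
  · have := (mul_eq_zero.mp e4).resolve_left hY0
    exact_mod_cast sub_eq_zero.mp this

/-- `j (2 j - 1) C(2 k + 1, 2 j) = (2 k + 1) k C(2 k - 1, 2 j - 2)` -/
theorem choose_even (k j : ℕ) :
    (2 * k + 3).choose (2 * j + 2) * ((j + 1) * (2 * j + 1)) =
      (2 * k + 3) * (k + 1) * (2 * k + 1).choose (2 * j) := by
  have h1 := Nat.add_one_mul_choose_eq (2 * k + 2) (2 * j + 1)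
  have h2 := Nat.add_one_mul_choose_eq (2 * k + 1) (2 * j)
  have h3 : 2 * ((2 * k + 3).choose (2 * j + 2) * ((j + 1) * (2 * j + 1))) =
      2 * ((2 * k + 3) * (k + 1) * (2 * k + 1).choose (2 * j)) := by
    calc 2 * ((2 * k + 3).choose (2 * j + 2) * ((j + 1) * (2 * j + 1)))
        = ((2 * k + 2 + 1).choose (2 * j + 1 + 1) * (2 * j + 1 + 1)) * (2 * j + 1) := by ring
      _ = ((2 * k + 2 + 1) * (2 * k + 2).choose (2 * j + 1)) * (2 * j + 1) := by rw [h1]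
      _ = (2 * k + 3) * ((2 * k + 1 + 1).choose (2 * j + 1) * (2 * j + 1)) := by ring
      _ = (2 * k + 3) * ((2 * k + 1 + 1) * (2 * k + 1).choose (2 * j)) := by rw [h2]
      _ = 2 * ((2 * k + 3) * (k + 1) * (2 * k + 1).choose (2 * j)) := by ring
  exact Nat.eq_of_mul_eq_mul_left two_pos h3

/-- `j (2 j + 1) C(2 k + 1, 2 j + 1) = (2 k + 1) k C(2 k - 1, 2 j - 1)` -/
theorem choose_odd (k j : ℕ) :
    (2 * k + 3).choose (2 * j + 3) * ((j + 1) * (2 * j + 3)) =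
      (2 * k + 3) * (k + 1) * (2 * k + 1).choose (2 * j + 1) := by
  have h1 := Nat.add_one_mul_choose_eq (2 * k + 2) (2 * j + 2)
  have h2 := Nat.add_one_mul_choose_eq (2 * k + 1) (2 * j + 1)
  have h3 : 2 * ((2 * k + 3).choose (2 * j + 3) * ((j + 1) * (2 * j + 3))) =
      2 * ((2 * k + 3) * (k + 1) * (2 * k + 1).choose (2 * j + 1)) := by
    calc 2 * ((2 * k + 3).choose (2 * j + 3) * ((j + 1) * (2 * j + 3)))
        = ((2 * k + 2 + 1).choose (2 * j + 2 + 1) * (2 * j + 2 + 1)) * (2 * j + 2) := by ring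
      _ = ((2 * k + 2 + 1) * (2 * k + 2).choose (2 * j + 2)) * (2 * j + 2) := by rw [h1]
      _ = (2 * k + 3) * ((2 * k + 1 + 1).choose (2 * j + 1 + 1) * (2 * j + 1 + 1)) := by ring
      _ = (2 * k + 3) * ((2 * k + 1 + 1) * (2 * k + 1).choose (2 * j + 1)) := by rw [h2]
      _ = 2 * ((2 * k + 3) * (k + 1) * (2 * k + 1).choose (2 * j + 1)) := by ring
  exact Nat.eq_of_mul_eq_mul_left two_pos h3

end Pool.Agent.Lib_MP_6050fa_q
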